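import Pool.Agent.Zk74.MC.Defs
import Pool.Agent.W574.MO.Point
import Pool.Agent.Y230.TH.TopDefs
import Pool.Agent.Y230.TL.Fin
import Pool.Agent.R852.TL.Loc

set_option autoImplicit false

/-! # Motivic zeta functions of Thom-Sebastiani sums `∑ y_j f_j(x) + g(z)`

`M` is a commutative ring with a unit `L`, for instance `K₀(Var_ℂ)[1/L]`; see `Pool.Agent.Zk74.MC.Defs`
for the class `Mot` of ideals together with their motivic zeta functions `Z = ∑_e z_e T^e`, where `z_e` is
the volume of the set of the arcs `φ` with `ord φ^* I = e`. The series of the volumes `V_e` of the sets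
`ord φ^* I ≥ e` is `tail 1 Z`.

Let `F = ∑_j y_j f_j(x) + g(z)`, let `I = (f_j)`, and let `Z = ∑ z_e T^e`, `∑ V_e T^e = tail 1 Z` and
`W = ∑ w_k T^k`, `∑ W_k T^k = tail 1 W` belong to `I` and to `g`. Let `e` be the order of `I` at the arc
`x(t)`, and let `k = ord g(z(t))`. For fixed `x(t)`, the sum `∑_j y_j f_j(x)` is distributed like `t^e u`
with a variable `u ∈ ℂ⟦t⟧` (in the local case `u ∈ t ℂ⟦t⟧`). So the order of `F` is `k` if `k < e`
(if `k ≤ e`), and otherwise, for fixed `x(t)` and `z(t)`, it is distributed like `e + ord u`. Hence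
`Z_F = ∑_e z_e W_e T^e U + ∑_k w_k V_(k + 1) T^k`, where `U = (1 - L⁻¹) / (1 - L⁻¹ T)`; in the local case,
`Z_F = ∑_e z_e W_(e + 1) T^e U + ∑_k w_k V_k T^k`, where `U = (L - 1) L⁻¹ T / (1 - L⁻¹ T)`. -/

namespace Pool.Agent.Zk74.TS

open MvPolynomial Pool.Agent.W574.SM Pool.Agent.W574.MO Pool.Agent.W574.CN Pool.Agent.W574.RO
open Pool.Agent.W574.LM
open Pool.Agent.Y229 Pool.Agent.R852.TP Pool.Agent.R852.TL Pool.Agent.Zk74.MC
open Pool.Agent.Y230.PS (FM)
open Pool.Agent.Y230.TH (tsFam)

section series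

variable {M : Type} [CommRing M]

/-- `∑_e c_(e + 1) T^e` for the series `∑_e c_e T^e` -/
noncomputable def sh (Z : PowerSeries M) : PowerSeries M :=
  PowerSeries.mk fun e => PowerSeries.coeff (e + 1) Z

/-- The motivic zeta function of `∑_j y_j f_j(x) + g(z)`, see the beginning of the file. -/
noncomputable def tsZ (L : Mˣ) (loc : Bool) (Z W : PowerSeries M) : PowerSeries M :=
  bif loc then had Z (sh (tail 1 W)) * lineZ L true 1 + had (tail 1 Z) W
    else had Z (tail 1 W) * lineZ L false 1 + had (sh (tail 1 Z)) W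

end series

/-- `g` is not a unit (at the origin: `g(0) = 0`). -/
def NU (loc : Bool) {σ : Type} (g : MvPolynomial σ ℂ) : Prop :=
  bif loc then constantCoeff g = 0 else ¬ IsUnit g

/-- `-1` is a double root of all the `b` in the functional equations of `g` (at the origin: in all
equations `H b(s) g ^ s = P(s) g ^ (s + 1)` with `H(0) ≠ 0`). -/
def Double (loc : Bool) {σ : Type} (g : MvPolynomial σ ℂ) : Prop :=
  bif loc then LM (fun _ : Fin 1 => g) (-1) 2 else FM (fun _ : Fin 1 => g) (-1) 2

/-- Over `ℤ[L, L⁻¹]`: the series `(1 - L⁻¹ T) Z` has no denominators `1 - L⁻ⁿ Tⁿ`; for the series of the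
volumes of the sets `ord g ≥ e` this means that the motivic zeta function of `g` has at most a simple
pole at `s = -1`. -/
def SimpleAt (Z : PowerSeries AA) : Prop :=
  (1 - qq LL 1 1) * Z ∈ DenRing LL fun a n => n ≠ a

/-- Two classes: `MT L loc false A Z` for ideals, and `MT L loc true A Z` for principal ideals
(hypersurfaces), together with their motivic zeta functions (`loc = false`; the volume of all arcs
is `1`), or with their motivic zeta functions at the origin (`loc = true`; the volume of the arcs with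
the origin `0` is `1`). They are the smallest classes with the following properties. -/
inductive MT {M : Type} [CommRing M] (L : Mˣ) : Bool → Bool → Fam → PowerSeries M → Prop
  /-- the ideals in the class `Mot` -/
  | ideal (loc : Bool) (A : Fam) (Z : PowerSeries M) (h : Mot L loc A Z) : MT L loc false A Z
  /-- the hypersurface `x ^ m = 0` in one variable -/
  | line (loc : Bool) (m : ℕ) (hm : 1 ≤ m) :
      MT L loc true ⟨Fin 1, Fin 1, fun _ => X 0 ^ m⟩ (lineZ L loc m)
  /-- the hypersurfaces in the class `Mot`, computed over `ℤ[L, L⁻¹]`, whose motivic zeta function has at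
  most a simple pole at `-1` -/
  | simple (loc : Bool) (σ : Type) (g : MvPolynomial σ ℂ) (Z : PowerSeries AA)
      (h : Mot LL loc ⟨σ, Fin 1, fun _ => g⟩ Z) (h0 : NU loc g) (h1 : SimpleAt (tail 1 Z)) :
      MT L loc true ⟨σ, Fin 1, fun _ => g⟩ (Phi L Z)
  /-- a plane curve `g = 0` such that the contributions of the points in `S`, computed by blowing up
  points, have at most a simple pole at `-1`; see `PlaneVol` -/
  | curve (g : MvPolynomial (Fin 2) ℂ) (hg : g ≠ 0) (h0 : ¬ IsUnit g) (u₀ : M) (r : ℕ)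
      (h : Fin r → MvPolynomial (Fin 2) ℂ) (m : Fin r → ℕ) (w : Fin r → M)
      (S : Finset (Fin 2 → ℂ)) (ZP : (Fin 2 → ℂ) → PowerSeries AA)
      (hC : ∀ i, IsCurve (fun _ : Fin 1 => g) (h i) (m i))
      (hP : ∀ P ∈ S, MotLocal LL (fun _ : Fin 1 => translate P g) 0 1 0 1 (ZP P) ∧
        SimpleAt (tail 1 (ZP P)))
      (htot : u₀ + ∑ i, w i + (S.card : M) = (L : M) ^ 2) :
      MT L false true ⟨Fin 2, Fin 1, fun _ => g⟩ (PowerSeries.C (((L⁻¹ ^ 2 : Mˣ) : M)) *
        (PowerSeries.C u₀ + ∑ i, PowerSeries.C (w i) * mf L (m i) 1 + ∑ P ∈ S, Phi L (ZP P)))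
  /-- the hypersurfaces for which `-1` is a double root -/
  | double (loc : Bool) (σ : Type) (g : MvPolynomial σ ℂ) (Z : PowerSeries M)
      (h : MT L loc false ⟨σ, Fin 1, fun _ => g⟩ Z) (h1 : Double loc g) :
      MT L loc true ⟨σ, Fin 1, fun _ => g⟩ Z
  /-- a hypersurface is a principal ideal -/
  | hyp (loc : Bool) (σ : Type) (g : MvPolynomial σ ℂ) (Z : PowerSeries M)
      (h : MT L loc true ⟨σ, Fin 1, fun _ => g⟩ Z) : MT L loc false ⟨σ, Fin 1, fun _ => g⟩ Z
  /-- the hypersurface `h(x) ∏_t (∑_j y_{t, j} f_{t, j}(x)) ^ a_t = 0`, with further variables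
  `y_{t, j}`, if the ideal `h ∏_t (f_{t, j})_j ^ a_t` is in the class -/
  | form (loc : Bool) (σ τ : Type) [Fintype τ] [DecidableEq τ] [Nonempty τ] (κ : τ → Type)
      [∀ t, Fintype (κ t)] (a : τ → ℕ) (ha : ∀ t, 0 < a t) (h : MvPolynomial σ ℂ)
      (f : (t : τ) → κ t → MvPolynomial σ ℂ) (Z : PowerSeries M)
      (hA : MT L loc false (genFam a h f) Z) :
      MT L loc true (formFam a h f) (Z * ∏ t, lineZ L loc (a t))
  /-- the Thom-Sebastiani sum `∑_j y_j f_j(x) + g(z)` in disjoint sets of variables -/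
  | ts (loc : Bool) (A : Fam) (τ : Type) (g : MvPolynomial τ ℂ) (Z W : PowerSeries M)
      (hA : MT L loc false A Z) (hg : MT L loc true ⟨τ, Fin 1, fun _ => g⟩ W) :
      MT L loc true (tsFam A τ g) (tsZ L loc Z W)
  /-- variables which do not occur may be dropped -/
  | drop (loc : Bool) (σ κ : Type) (g : MvPolynomial σ ℂ) (Z : PowerSeries M)
      (h : MT L loc true ⟨σ ⊕ κ, Fin 1, fun _ => rename Sum.inl g⟩ Z) :
      MT L loc true ⟨σ, Fin 1, fun _ => g⟩ Z
  /-- the variables of a hypersurface may be indexed differently -/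
  | equivH (loc : Bool) (σ τ : Type) (e : σ ≃ τ) (g : MvPolynomial σ ℂ) (Z : PowerSeries M)
      (h : MT L loc true ⟨σ, Fin 1, fun _ => g⟩ Z) :
      MT L loc true ⟨τ, Fin 1, fun _ => rename e g⟩ Z
  /-- the sum of two ideals in disjoint sets of variables -/
  | sum (loc : Bool) (A B : Fam) (Z W : PowerSeries M) (hA : MT L loc false A Z)
      (hB : MT L loc false B W) : MT L loc false (A.sum B) (sumSeries Z W)
  /-- the product of two ideals in disjoint sets of variables -/
  | mul (loc : Bool) (A B : Fam) (Z W : PowerSeries M) (hA : MT L loc false A Z)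
      (hB : MT L loc false B W) : MT L loc false (A.mul B) (Z * W)
  /-- the powers of a principal ideal -/
  | pow (loc : Bool) (σ : Type) (g : MvPolynomial σ ℂ) (k : ℕ) (hk : k ≠ 0) (Z : PowerSeries M)
      (hA : MT L loc false ⟨σ, Fin 1, fun _ => g⟩ Z) :
      MT L loc false ⟨σ, Fin 1, fun _ => g ^ k⟩ (PowerSeries.expand k hk Z)
  /-- an ideal generated by forms of the same degree -/
  | cone (A : Fam) (d : ℕ) (hd : ∀ j, (A.f j).IsHomogeneous d) (Z : PowerSeries M)
      (h : MT L false false A Z) : MT L true false A (PowerSeries.X ^ d * Z)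
  /-- the same, in the other direction -/
  | uncone (A : Fam) (d : ℕ) (hd : ∀ j, (A.f j).IsHomogeneous d) (Z : PowerSeries M)
      (h : MT L true false A (PowerSeries.X ^ d * Z)) : MT L false false A Z
  /-- the variables and the generators may be indexed differently -/
  | equiv (loc : Bool) (A B : Fam) (i : A.σ ≃ B.σ) (k : A.ι ≃ B.ι)
      (h : ∀ j, B.f (k j) = rename i (A.f j)) (Z : PowerSeries M) (hA : MT L loc false A Z) :
      MT L loc false B Z
  /-- polynomial automorphisms of the affine space (which preserve the origin, if `loc = true`) -/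
  | auto (loc : Bool) (A : Fam) (Φ : MvPolynomial A.σ ℂ ≃ₐ[ℂ] MvPolynomial A.σ ℂ)
      (h0 : loc = true → ∀ i, constantCoeff (Φ (X i)) = 0) (Z : PowerSeries M)
      (hA : MT L loc false A Z) : MT L loc false ⟨A.σ, A.ι, fun j => Φ (A.f j)⟩ Z

end Pool.Agent.Zk74.TS
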