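import Pool.Agent.Zk74.TS.Cls
import Pool.Agent.Zk74.TS.Defs

set_option autoImplicit false

/-! # The class `ClTS` is contained in `MT` -/

namespace Pool.Agent.Zk74.TS

open MvPolynomial Pool.Agent.W574.SM Pool.Agent.W574.MO Pool.Agent.W574.CN Pool.Agent.W574.RO
open Pool.Agent.Y229 Pool.Agent.R852.TP Pool.Agent.R852.MC Pool.Agent.N103 Pool.Agent.Zk74.MC
open Pool.Agent.TH192.DT (MSpace)

variable {M : Type} [CommRing M]

theorem cw_eq (Z W : PowerSeries M) : cw Z W = had Z W := rfl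

theorem shf_eq (Z : PowerSeries M) : shf Z = sh Z := rfl

theorem vol_eq (Z : PowerSeries M) : vol Z = tail 1 Z := rfl

theorem zLine_eq (L : Mˣ) (loc : Bool) (a : ℕ) : zLine L loc a = lineZ L loc a := rfl

theorem zTS_eq (L : Mˣ) (loc : Bool) (Z W : PowerSeries M) : zTS L loc Z W = tsZ L loc Z W := rfl

theorem LZ_eq : LZ = LL := rfl

theorem toM_eq (L : Mˣ) : toM L = Phi L := rfl

theorem qq_one : qq LL 1 1 = PowerSeries.C ((LL⁻¹ : AAˣ) : AA) * PowerSeries.X := by
  rw [qq, pow_one, pow_one]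

theorem simple_iff (Z : PowerSeries AA) : Simple Z ↔ SimpleAt (tail 1 Z) := by
  rw [SimpleAt, qq_one]
  exact Iff.rfl

theorem nonUnit_iff (loc : Bool) {σ : Type} (g : MvPolynomial σ ℂ) : NonUnit loc g ↔ NU loc g :=
  Iff.rfl

theorem doubleRoot_iff (loc : Bool) {σ : Type} (g : MvPolynomial σ ℂ) :
    DoubleRoot loc g ↔ Double loc g := by
  cases loc
  · exact Iff.rfl
  · exact Iff.rfl

theorem pfaff_eq {R : Type} [CommRing R] : ∀ (n : ℕ) (A : Matrix (Fin n) (Fin n) R),
    pfaff n A = Pool.Agent.Helper929.pf n A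
  | 0, _ => by rw [pfaff, Pool.Agent.Helper929.pf]
  | 1, _ => by rw [pfaff, Pool.Agent.Helper929.pf]
  | (n + 2), A => by
    rw [pfaff, Pool.Agent.Helper929.pf]
    exact Finset.sum_congr rfl fun j _ => by rw [pfaff_eq n]

theorem mins_eq : ∀ (S : MSpace) (p : ℕ), mins S p = S.minors p
  | MSpace.gen _ _, _ => rfl
  | MSpace.sym _, _ => rfl
  | MSpace.skew _, _ => funext fun _ => pfaff_eq _ _

theorem detP_iff (S : MSpace) {T : ℕ} (p : Fin T → ℕ) : DetP S p = DetPair S p := rfl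

theorem hankP_iff (N : ℕ) {T : ℕ} (p : Fin T → ℕ) : HankP N p = HankelPair N p := rfl

theorem reesP_iff (loc : Bool) {σ κ : Type} [Fintype σ] [DecidableEq σ] [Fintype κ]
    [DecidableEq κ] (f : κ → MvPolynomial σ ℂ) : ReesP loc f = ReesPair loc f := rfl

theorem Cl.toMot {L : Mˣ} {loc : Bool} {A : Fam} {Z : PowerSeries M} (h : Cl L loc A Z) :
    Mot L loc A Z := by
  induction h with
  | ofMG A Z h => exact Mot.ofMG A Z h
  | ofGermLin A Z h => exact Mot.ofGermLin A Z h
  | rees loc σ κ f hf Z hZ => exact Mot.rees loc σ κ f hf Z hZ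
  | det S T p hp Z hZ =>
    have h1 : (fun j : (t : Fin T) → S.Idx (p t) => ∏ t, mins S (p t) (j t)) = S.prods p := by
      funext j
      exact Finset.prod_congr rfl fun t _ => by rw [mins_eq]
    have h2 := Mot.det (L := L) S T p hp Z hZ
    rw [← h1] at h2
    exact h2
  | hankel N T p hp Z hZ => exact Mot.hankel N T p hp Z hZ
  | cone A d hd Z _ ih => exact Mot.cone A d hd Z ih
  | uncone A d hd Z _ ih => exact Mot.uncone A d hd Z ih
  | sum loc A B Z W _ _ ihA ihB => exact Mot.sum loc A B Z W ihA ihB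
  | mul loc A B Z W _ _ ihA ihB => exact Mot.mul loc A B Z W ihA ihB
  | form loc σ τ κ a ha h f Z _ ih => exact Mot.form loc σ τ κ a ha h f Z ih
  | pow loc σ g k hk Z _ ih => exact Mot.pow loc σ g k hk Z ih
  | equiv loc A B i k h Z _ ih => exact Mot.equiv loc A B i k h Z ih
  | auto loc A Φ h0 Z _ ih => exact Mot.auto loc A Φ h0 Z ih

theorem ClTS.toMT {L : Mˣ} {loc hyp : Bool} {A : Fam} {Z : PowerSeries M}
    (h : ClTS L loc hyp A Z) : MT L loc hyp A Z := by
  induction h with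
  | ideal loc A Z h => exact MT.ideal loc A Z h.toMot
  | line loc m hm => exact MT.line loc m hm
  | simple loc σ g Z h h0 h1 => exact MT.simple loc σ g Z h.toMot h0 ((simple_iff Z).1 h1)
  | curve g hg h0 u₀ r h m w S ZP hC hP htot =>
    exact MT.curve g hg h0 u₀ r h m w S ZP hC
      (fun P hPS => ⟨(hP P hPS).1, (simple_iff _).1 (hP P hPS).2⟩) htot
  | double loc σ g Z _ h1 ih => exact MT.double loc σ g Z ih ((doubleRoot_iff loc g).1 h1)
  | hyp loc σ g Z _ ih => exact MT.hyp loc σ g Z ih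
  | form loc σ τ κ a ha h f Z _ ih => exact MT.form loc σ τ κ a ha h f Z ih
  | ts loc A τ g Z W _ _ ihA ihg => exact MT.ts loc A τ g Z W ihA ihg
  | drop loc σ κ g Z _ ih => exact MT.drop loc σ κ g Z ih
  | equivH loc σ τ e g Z _ ih => exact MT.equivH loc σ τ e g Z ih
  | sum loc A B Z W _ _ ihA ihB => exact MT.sum loc A B Z W ihA ihB
  | mul loc A B Z W _ _ ihA ihB => exact MT.mul loc A B Z W ihA ihB
  | pow loc σ g k hk Z _ ih => exact MT.pow loc σ g k hk Z ih
  | cone A d hd Z _ ih => exact MT.cone A d hd Z ih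
  | uncone A d hd Z _ ih => exact MT.uncone A d hd Z ih
  | equiv loc A B i k h Z _ ih => exact MT.equiv loc A B i k h Z ih
  | auto loc A Φ h0 Z _ ih => exact MT.auto loc A Φ h0 Z ih

end Pool.Agent.Zk74.TS
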