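import Pool.Agent.Zk74.TS.Main

set_option autoImplicit false
set_option linter.unusedSectionVars false
set_option linter.unusedVariables false

/-! # The induction for the class `MT`, and the final statements -/

namespace Pool.Agent.Zk74.TS

open MvPolynomial Pool.Agent.W574.SM Pool.Agent.W574.MO Pool.Agent.W574.CN Pool.Agent.W574.RO
open Pool.Agent.W574.LM Pool.Agent.W574.HS
open Pool.Agent.Y229 Pool.Agent.R852.TP Pool.Agent.R852.TL Pool.Agent.Zk74.MC
open Pool.Agent.R852.MC (add_frac tail_prod_mem sum_ne mul_ne tail_X_pow_mul tail_expand_mem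
  sf_root)
open Pool.Agent.Y230.PS (FM single_of_isB)
open Pool.Agent.Y230.TH (tsFam tsFam_ne)
open Pool.Agent.H628R4.TP (IsBFunction IsLocalBFunction)
open Pool.Agent.TH192.DT (ratU)

variable {M : Type} [CommRing M] {L : Mˣ}

/-- the hypersurfaces with at most a simple pole at `-1` -/
theorem good_simple (loc : Bool) {σ : Type} (g : MvPolynomial σ ℂ) (Z : PowerSeries AA)
    (h : Mot LL loc ⟨σ, Fin 1, fun _ => g⟩ Z) (h0 : NU loc g) (h1 : SimpleAt (tail 1 Z)) :
    Good L loc true ⟨σ, Fin 1, fun _ => g⟩ (Phi L Z) := by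
  obtain ⟨hfin, ⟨j, hj⟩, hm⟩ := mot_main loc _ Z h
  have hfin' : Finite σ := hfin
  have hg : g ≠ 0 := hj
  refine good_of_rt loc g _ hfin hg ?_ (fr_minus_one loc g hg h0)
  have h2 := simple_mem (kr_ratio loc (fun _ : Fin 1 => g)) hm h1
  have h3 := Phi_mem L h2
  rw [map_mul, map_sub, map_one, Phi_qq, Phi_tail] at h3
  refine denRing_mono (fun a n ha _ h4 => ?_) h3
  exact rr_of_fr loc g _ (fun h5 => h4.2 ((neg_one_iff ha).1 h5)) h4.1

theorem good_line (loc : Bool) (m : ℕ) (hm : 1 ≤ m) :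
    Good L loc true ⟨Fin 1, Fin 1, fun _ => X 0 ^ m⟩ (lineZ L loc m) := by
  have hg : (X 0 ^ m : MvPolynomial (Fin 1) ℂ) ≠ 0 := pow_ne_zero _ (X_ne_zero _)
  have h0 : (X 0 ^ m : MvPolynomial (Fin 1) ℂ).IsHomogeneous m := isHomogeneous_X_pow 0 m
  have hm1 : FR true (fun _ : Fin 1 => (X 0 ^ m : MvPolynomial (Fin 1) ℂ)) (-1) := by
    refine fr_minus_one true _ hg ?_
    change constantCoeff (X 0 ^ m : MvPolynomial (Fin 1) ℂ) = 0
    rw [map_pow, constantCoeff_X, zero_pow (by omega)]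
  have hm1' : FR loc (fun _ : Fin 1 => (X 0 ^ m : MvPolynomial (Fin 1) ℂ)) (-1) := by
    cases loc with
    | false => exact (fr_cone _ m (fun _ => h0) _).1 hm1
    | true => exact hm1
  refine good_of_rt loc _ _ (inferInstanceAs (Finite (Fin 1))) hg ?_ hm1'
  rcases Nat.lt_or_ge 1 m with h1 | h1
  · refine (DenRing L _).mul_mem q_mem (tail_lineZ loc m hm ?_)
    have h2 : FR false (fun _ : Fin 1 => (X 0 ^ m : MvPolynomial (Fin 1) ℂ))
        (-((1 : ℕ) : ℂ) / m) := forced_power m hm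
    refine rr_of_fr loc _ _ (fun h3 => ?_) ?_
    · have := (neg_one_iff (n := 1) hm).1 h3
      omega
    · cases loc with
      | false => exact h2
      | true => exact (fr_cone _ m (fun _ => h0) _).2 h2
  · have h2 : m = 1 := by omega
    subst h2
    exact q_tail_line loc

theorem good_curve (g : MvPolynomial (Fin 2) ℂ) (hg : g ≠ 0) (h0 : ¬ IsUnit g) (u₀ : M) (r : ℕ)
    (h : Fin r → MvPolynomial (Fin 2) ℂ) (m : Fin r → ℕ) (w : Fin r → M)
    (S : Finset (Fin 2 → ℂ)) (ZP : (Fin 2 → ℂ) → PowerSeries AA)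
    (hC : ∀ i, IsCurve (fun _ : Fin 1 => g) (h i) (m i))
    (hP : ∀ P ∈ S, MotLocal LL (fun _ : Fin 1 => translate P g) 0 1 0 1 (ZP P) ∧
      SimpleAt (tail 1 (ZP P)))
    (htot : u₀ + ∑ i, w i + (S.card : M) = (L : M) ^ 2) :
    Good L false true ⟨Fin 2, Fin 1, fun _ => g⟩ (PowerSeries.C (((L⁻¹ ^ 2 : Mˣ) : M)) *
      (PowerSeries.C u₀ + ∑ i, PowerSeries.C (w i) * mf L (m i) 1 + ∑ P ∈ S, Phi L (ZP P))) := by
  classical
  refine good_of_rt false g _ (inferInstanceAs (Finite (Fin 2))) hg ?_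
    (fr_minus_one false g hg h0)
  have e : (1 : M) = ((L⁻¹ ^ 2 : Mˣ) : M) *
      (u₀ * 1 + ∑ i, w i * 1 + ∑ P ∈ S, (1 : M)) := by
    rw [mul_one, Finset.sum_congr rfl fun i _ => mul_one (w i), Finset.sum_const, nsmul_eq_mul,
      mul_one, htot, ← Units.val_pow_eq_pow_val, ← Units.val_mul, ← mul_pow, inv_mul_cancel,
      one_pow, Units.val_one]
  rw [e, tail_C_mul, tail_add, tail_add, tail_sum, tail_sum]
  have e2 : ∀ x y z c : PowerSeries M, (1 - qq L 1 1) * (c * (x + y + z)) =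
      c * ((1 - qq L 1 1) * x + (1 - qq L 1 1) * y + (1 - qq L 1 1) * z) := fun x y z c => by ring
  rw [e2]
  refine (DenRing L _).mul_mem (C_mem _) ((DenRing L _).add_mem ((DenRing L _).add_mem ?_ ?_) ?_)
  · rw [mul_one, tail_C]
    exact (DenRing L _).mul_mem q_mem (C_mem _)
  · rw [Finset.mul_sum]
    refine Subring.sum_mem _ fun i _ => ?_
    rw [tail_C_mul]
    have e3 : (1 - qq L 1 1) * (PowerSeries.C (w i) * tail 1 (mf L (m i) 1)) =
        PowerSeries.C (w i) * ((1 - qq L 1 1) * tail 1 (mf L (m i) 1)) := by ring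
    rw [e3]
    refine (DenRing L _).mul_mem (C_mem _) ?_
    have hm : 1 ≤ m i := (hC i).2.1
    rcases Nat.lt_or_ge 1 (m i) with h1 | h1
    · refine (DenRing L _).mul_mem q_mem (tail_mf_mem (m i) hm ?_)
      refine rr_of_fr false g _ (fun h3 => ?_) ?_
      · have := (neg_one_iff (n := 1) hm).1 h3
        omega
      · intro b hb
        have h2 := curve_root (fun _ : Fin 1 => g) b hb (h i) (m i) (hC i)
        rw [Nat.cast_one]
        exact h2
    · have h2 : m i = 1 := by omega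
      rw [h2]
      exact q_tail_line true
  · rw [Finset.mul_sum]
    refine Subring.sum_mem _ fun P hPS => ?_
    obtain ⟨h1, h2⟩ := hP P hPS
    have h3 : tail 1 (ZP P) ∈ DenRing LL (KR false (fun _ : Fin 1 => g)) :=
      point_forced LL (fun _ : Fin 1 => g) P (ZP P) h1
    have h4 := Phi_mem L (simple_mem (kr_ratio false (fun _ : Fin 1 => g)) h3 h2)
    rw [map_mul, map_sub, map_one, Phi_qq, Phi_tail] at h4
    refine denRing_mono (fun a n ha _ h5 => ?_) h4
    exact rr_of_fr false g _ (fun h6 => h5.2 ((neg_one_iff ha).1 h6)) h5.1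

theorem fr_drop (loc : Bool) {σ κ : Type} [Finite σ] (g : MvPolynomial σ ℂ) (hg : g ≠ 0)
    (h : FR loc (fun _ : Fin 1 => (rename Sum.inl g : MvPolynomial (σ ⊕ κ) ℂ)) (-1)) :
    FR loc (fun _ : Fin 1 => g) (-1) := by
  cases loc with
  | false =>
    have h1 := Pool.Agent.Y230.TH.fm_drop (κ := κ) g (-1) 1
      ((Pool.Agent.Y230.TH.fm_one _ _).2 h)
    exact (Pool.Agent.Y230.TH.fm_one _ _).1 h1
  | true =>
    have h1 := Pool.Agent.Y230.TL.zero_of_sf _ (-1) h
    rw [constantCoeff_rename] at h1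
    exact Pool.Agent.Y230.TL.sf_minus_one g hg h1

/-- **The denominators of the motivic zeta functions of the classes.** -/
theorem mt_main (loc c : Bool) (A : Fam) (Z : PowerSeries M) (h : MT L loc c A Z) :
    Good L loc c A Z := by
  classical
  induction h with
  | ideal loc A Z h =>
    obtain ⟨h1, h2, h3⟩ := mot_main loc A Z h
    exact ⟨h1, h2, h3, by simp, by simp⟩
  | line loc m hm => exact good_line loc m hm
  | simple loc σ g Z h h0 h1 => exact good_simple loc g Z h h0 h1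
  | curve g hg h0 u₀ r h m w S ZP hC hP htot =>
    exact good_curve g hg h0 u₀ r h m w S ZP hC hP htot
  | double loc σ g Z h h1 ih =>
    obtain ⟨hfin, ⟨j, hj⟩, hZ, -, -⟩ := ih
    have hfin' : Finite σ := hfin
    have hg : g ≠ 0 := hj
    refine good_of_rt loc g Z hfin hg ((DenRing L _).mul_mem q_mem
      (denRing_mono (fun a n ha _ h2 => ?_) hZ)) (fr_minus_of_double loc g hg h1)
    by_cases h3 : -(n : ℂ) / a = -1
    · change RR loc (fun _ : Fin 1 => g) (-(n : ℂ) / a)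
      rw [h3]
      exact rr_of_double loc g hg h1
    · exact rr_of_fr loc g _ h3 h2
  | hyp loc σ g Z h ih => exact ⟨ih.fin, ih.ne, ih.tl, by simp, by simp⟩
  | form loc σ τ κ a ha h f Z hA ihA => exact good_form loc a ha h f Z ihA
  | ts loc A τ g Z W hA hg ihA ihg => exact good_ts loc A τ g Z W ihA ihg
  | drop loc σ κ g Z h ih =>
    obtain ⟨hfin, ⟨j, hj⟩, hZ, hr, hm⟩ := ih
    have hfin0 : Finite (σ ⊕ κ) := hfin
    have hfin' : Finite σ := Finite.of_injective (Sum.inl : σ → σ ⊕ κ) Sum.inl_injective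
    have hg : g ≠ 0 := by
      rintro rfl
      exact hj (map_zero _)
    refine good_of_rt loc g Z hfin' hg (denRing_mono (fun a n ha _ h2 => ?_) (hr rfl)) ?_
    · exact rr_drop loc (κ := κ) g _ h2
    · exact fr_drop loc (κ := κ) g hg (hm rfl)
  | equivH loc σ τ e g Z h ih =>
    obtain ⟨hfin, ⟨j, hj⟩, hZ, hr, hm⟩ := ih
    have hfin0 : Finite σ := hfin
    have hg : g ≠ 0 := hj
    refine good_of_rt loc _ Z (Finite.of_equiv _ e) ?_
      (denRing_mono (fun a n ha _ h2 => ?_) (hr rfl)) ?_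
    · rw [Ne, map_eq_zero_iff _ (rename_injective _ e.injective)]
      exact hg
    · exact rr_equiv loc e g _ h2
    · exact fr_equiv loc e (Equiv.refl (Fin 1)) (fun _ : Fin 1 => g) (fun _ : Fin 1 => rename e g)
        (fun _ => rfl) _ (hm rfl)
  | sum loc A B Z W hA hB ihA ihB =>
    have fA := ihA.fin
    have fB := ihB.fin
    refine ⟨inferInstanceAs (Finite (A.σ ⊕ B.σ)), sum_ne ihA.ne, ?_, by simp, by simp⟩
    rw [tail_min]
    refine had_mem ihA.tl ihB.tl fun a n a' n' l ha hn hK ha' hn' hK' hl hal hal' => ?_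
    have h1 := fr_sum loc A.f B.f _ _ hK hK'
    rw [add_frac ha ha' hl hal hal'] at h1
    exact h1
  | mul loc A B Z W hA hB ihA ihB =>
    have fA := ihA.fin
    have fB := ihB.fin
    exact ⟨inferInstanceAs (Finite (A.σ ⊕ B.σ)), mul_ne ihA.ne ihB.ne,
      tail_mul_mem (denRing_mono (fun a n _ _ h => fr_mul loc A.f B.f ihB.ne _ h) ihA.tl)
        (denRing_mono (fun a n _ _ h => fr_mul' loc A.f B.f ihA.ne _ h) ihB.tl), by simp, by simp⟩
  | pow loc σ g k hk Z hA ihA =>
    obtain ⟨hfin, ⟨j, hj⟩, hZ, -, -⟩ := ihA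
    have hfin' : Finite σ := hfin
    have hg : g ≠ 0 := hj
    exact ⟨hfin, ⟨(0 : Fin 1), pow_ne_zero k hg⟩, tail_expand_mem k hk
      (fun a n ha hn h1 => fr_pow loc g hg k hk a n ha h1) _ hZ, by simp, by simp⟩
  | cone A d hd Z h ih =>
    have hfin := ih.fin
    refine ⟨ih.fin, ih.ne, ?_, by simp, by simp⟩
    rw [tail_X]
    exact (DenRing L _).add_mem (X_pow_sum_mem d) ((DenRing L _).mul_mem
      ((DenRing L _).pow_mem X_mem d)
      (denRing_mono (fun a n _ _ h => (fr_cone A.f d hd _).2 h) ih.tl))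
  | uncone A d hd Z h ih =>
    have hfin := ih.fin
    exact ⟨ih.fin, ih.ne, denRing_mono (fun a n _ _ h => (fr_cone A.f d hd _).1 h)
      (tail_X_pow_mul d _ ih.tl), by simp, by simp⟩
  | equiv loc A B i k h Z hA ihA =>
    obtain ⟨fA, ⟨j, hj⟩, hZ, -, -⟩ := ihA
    refine ⟨Finite.of_equiv _ i, ⟨k j, ?_⟩,
      denRing_mono (fun a n _ _ hS => fr_equiv loc i k A.f B.f h _ hS) hZ, by simp, by simp⟩
    rw [h, Ne, map_eq_zero_iff _ (rename_injective _ i.injective)]
    exact hj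
  | auto loc A Φ h0 Z hA ihA =>
    obtain ⟨fA, ⟨j, hj⟩, hZ, -, -⟩ := ihA
    refine ⟨fA, ⟨j, fun h => hj ?_⟩, denRing_mono (fun a n _ _ hS => ?_) hZ, by simp, by simp⟩
    · have h1 : Φ (A.f j) = 0 := h
      rwa [map_eq_zero_iff _ Φ.injective] at h1
    · cases loc with
      | false => exact forced_auto Φ A.f _ hS
      | true => exact sf_auto Φ (h0 rfl) A.f _ hS

/-- hypersurfaces -/
theorem mt_hyp {σ : Type} (c : Bool) (F : MvPolynomial σ ℂ) (Z : PowerSeries M)
    (h : MT L false c ⟨σ, Fin 1, fun _ => F⟩ Z) (b : Polynomial ℂ) (hb : IsBFunction F b) (x : M) :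
    PowerSeries.C x * Z ∈ ratU L (Pool.Agent.R852.BM.RootPairs b) := by
  obtain ⟨-, -, hm, -, -⟩ := mt_main false c _ Z h
  exact ratU_of_denRing ((DenRing L _).mul_mem (C_mem _) (denRing_mono
    (fun a n _ _ h => h b (single_of_isB _ _ hb)) (mem_of_tail hm)))

/-- hypersurfaces at the origin -/
theorem mt_hyp_local {σ : Type} (c : Bool) (F : MvPolynomial σ ℂ) (Z : PowerSeries M)
    (h : MT L true c ⟨σ, Fin 1, fun _ => F⟩ Z) (b : Polynomial ℂ) (hb : IsLocalBFunction F b)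
    (x : M) : PowerSeries.C x * Z ∈ ratU L (Pool.Agent.R852.BM.RootPairs b) := by
  obtain ⟨hfin, ⟨j, hj⟩, hm, -, -⟩ := mt_main true c _ Z h
  exact ratU_of_denRing ((DenRing L _).mul_mem (C_mem _) (denRing_mono
    (fun a n _ _ h => sf_root hfin F hj _ h b hb) (mem_of_tail hm)))

/-- the reduced polynomial `b'` -/
theorem red_root (F : Polynomial ℂ) (b' : Polynomial ℂ) (hF : F = (Polynomial.X + 1) * b') (α : ℂ)
    (h : (Polynomial.X - Polynomial.C α) ^ (1 + Pool.Agent.Y230.TH.dl α) ∣ F) : b'.eval α = 0 := by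
  rw [Pool.Agent.Y230.TH.dl_eq] at h
  by_cases hα : α = -1
  · subst hα
    rw [if_pos rfl, hF, pow_succ, pow_one, map_neg, map_one, sub_neg_eq_add] at h
    have h1 : (Polynomial.X + 1 : Polynomial ℂ) ≠ 0 := Polynomial.X_add_C_ne_zero 1
    have h2 := (mul_dvd_mul_iff_left h1).1 h
    have h3 : (Polynomial.X - Polynomial.C (-1) : Polynomial ℂ) ∣ b' := by
      rw [map_neg, map_one, sub_neg_eq_add]
      exact h2
    exact Polynomial.dvd_iff_isRoot.1 h3
  · rw [if_neg hα, add_zero, pow_one, hF] at h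
    have h1 := Polynomial.dvd_iff_isRoot.1 h
    rw [Polynomial.IsRoot, Polynomial.eval_mul, Polynomial.eval_add, Polynomial.eval_X,
      Polynomial.eval_one] at h1
    refine (mul_eq_zero.1 h1).resolve_left fun h2 => hα ?_
    linear_combination h2

theorem exists_red (b : Polynomial ℂ) (h : b.eval (-1) = 0) :
    ∃ b' : Polynomial ℂ, b = (Polynomial.X + 1) * b' := by
  have h1 : (Polynomial.X - Polynomial.C (-1) : Polynomial ℂ) ∣ b := Polynomial.dvd_iff_isRoot.2 h
  rw [map_neg, map_one, sub_neg_eq_add] at h1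
  exact h1

/-- **The reduced statement.** -/
theorem mt_red {σ : Type} (F : MvPolynomial σ ℂ) (Z : PowerSeries M)
    (h : MT L false true ⟨σ, Fin 1, fun _ => F⟩ Z) (b : Polynomial ℂ) (hb : IsBFunction F b) :
    ∃ b' : Polynomial ℂ, b = (Polynomial.X + 1) * b' ∧
      (1 - qq L 1 1) * tail 1 Z ∈ ratU L (Pool.Agent.R852.BM.RootPairs b') := by
  obtain ⟨-, -, -, hr, hm⟩ := mt_main false true _ Z h
  obtain ⟨b', hb'⟩ := exists_red b (hm rfl b (single_of_isB _ _ hb))
  refine ⟨b', hb', ratU_of_denRing (denRing_mono (fun a n _ _ h1 => ?_) (hr rfl))⟩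
  exact red_root b b' hb' _ (h1 b (single_of_isB _ _ hb))

/-- **The reduced statement at the origin.** -/
theorem mt_red_local {σ : Type} (F : MvPolynomial σ ℂ) (Z : PowerSeries M)
    (h : MT L true true ⟨σ, Fin 1, fun _ => F⟩ Z) (b : Polynomial ℂ)
    (hb : IsLocalBFunction F b) :
    ∃ b' : Polynomial ℂ, b = (Polynomial.X + 1) * b' ∧
      (1 - qq L 1 1) * tail 1 Z ∈ ratU L (Pool.Agent.R852.BM.RootPairs b') := by
  obtain ⟨hfin, ⟨j, hj⟩, -, hr, hm⟩ := mt_main true true _ Z h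
  have hfin' : Finite σ := hfin
  have hF : F ≠ 0 := hj
  obtain ⟨b', hb'⟩ := exists_red b (sf_root hfin F hF _ (hm rfl) b hb)
  refine ⟨b', hb', ratU_of_denRing (denRing_mono (fun a n _ _ h1 => ?_) (hr rfl))⟩
  obtain ⟨H, P, hH, hP⟩ := algebraic_of_local F hF b hb
  have h2 : Pool.Agent.Y230.TL.RF F 0 (-(n : ℂ) / a) := h1 0
  have hc : (0 : Pool.Agent.W574.SM.weyl σ) = ⟨((0 : Pool.Agent.H628R4.TP.weylS σ) :
    Module.End ℂ (MvPolynomial σ ℂ)), (0 : Pool.Agent.H628R4.TP.weylS σ).2⟩ := rfl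
  have h3 := h2 (Polynomial.C H * b'.map C)
    (P.mapRange (fun Q => (⟨Q.1, Q.2⟩ : Pool.Agent.W574.SM.weyl σ)) rfl) ?_
  · rw [Polynomial.eval_mul, Polynomial.eval_C, eval_mapC, map_mul, eval_C] at h3
    refine (mul_eq_zero.1 h3).resolve_left ?_
    rw [MvPolynomial.eval_zero]
    exact hH
  · intro k
    rw [Finsupp.sum_mapRange_index (fun m => by
      change _ • (0 : Module.End ℂ (MvPolynomial σ ℂ)) _ = 0
      rw [LinearMap.zero_apply, smul_zero])]
    change _ = P.sum fun m Q => ((k : ℂ) ^ m) • (Q : Module.End ℂ (MvPolynomial σ ℂ)) (F ^ (k + 1))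
    have e : (k : MvPolynomial σ ℂ) = C (k : ℂ) := (map_natCast C k).symm
    have e1 : b.eval (k : ℂ) = ((k : ℂ) + 1) * b'.eval (k : ℂ) := by
      rw [hb', Polynomial.eval_mul, Polynomial.eval_add, Polynomial.eval_X, Polynomial.eval_one]
    rw [← hP k, e1, Polynomial.eval_mul, Polynomial.eval_C, e, eval_mapC, map_mul, ← C_mul']
    ring

end Pool.Agent.Zk74.TS
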