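import Pool.Agent.N103.MDefs
import Pool.Agent.R852.MC.Defs
import Pool.Agent.TH192.DT.Types
import Pool.Agent.Y228.RR.Top

set_option autoImplicit false

/-! # Motivic zeta functions of Thom-Sebastiani sums `∑ y_j f_j(x) + g(z)`

`M` is a commutative ring with a unit `L`, for instance `K₀(Var_ℂ)[1/L]`. An ideal is given by a finite
family of generators (`Fam`); a hypersurface `F = 0` is the family with the only member `F`. -/

namespace Pool.Agent.Zk74.TS

open MvPolynomial Pool.Agent.W574.SM Pool.Agent.W574.MO Pool.Agent.W574.CN Pool.Agent.W574.RO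
open Pool.Agent.Y229 Pool.Agent.R852.TP Pool.Agent.R852.MC Pool.Agent.N103
open Pool.Agent.TH192.DT (MSpace)
open Pool.Agent.Y228.RR (FromRees)

/-! ## Series -/

section series

variable {M : Type} [CommRing M]

/-- the coefficientwise product -/
noncomputable def cw (Z W : PowerSeries M) : PowerSeries M :=
  PowerSeries.mk fun e => PowerSeries.coeff e Z * PowerSeries.coeff e W

/-- `∑_e c_(e + 1) T^e` for the series `∑_e c_e T^e` -/
noncomputable def shf (Z : PowerSeries M) : PowerSeries M :=
  PowerSeries.mk fun e => PowerSeries.coeff (e + 1) Z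

/-- `∑_e V_e T^e`, `V_e = 1 - ∑_(k < e) z_k`, for `Z = ∑_k z_k T^k`. If `z_k` is the volume of the set
`ord = k` of arcs, and the volume of all arcs is `1`, then `V_e` is the volume of the set `ord ≥ e`. -/
noncomputable def vol (Z : PowerSeries M) : PowerSeries M :=
  PowerSeries.mk fun e => 1 - ∑ k ∈ Finset.range e, PowerSeries.coeff k Z

/-- The integral of `T ^ (a ord z)` over the `z ∈ ℂ⟦t⟧`: `(1 - L⁻¹) / (1 - L⁻¹ T^a)`; and over the
`z ∈ t ℂ⟦t⟧`, the set of which has the volume `1`: `(L - 1) L⁻¹ T^a / (1 - L⁻¹ T^a)`. -/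
noncomputable def zLine (L : Mˣ) (loc : Bool) (a : ℕ) : PowerSeries M :=
  bif loc then mf L a 1 else PowerSeries.C (1 - ((L⁻¹ : Mˣ) : M)) * geo L a 1

/-- The motivic zeta function of `F = ∑_j y_j f_j(x) + g(z)`. Let `I = (f_j)`, and let
`Z = ∑ z_e T^e`, `∑ V_e T^e = vol Z` and `W = ∑ w_k T^k`, `∑ W_k T^k = vol W` belong to `I` and to `g`. Let
`e` be the order of `I` at the arc `x(t)`, and let `k = ord g(z(t))`. For fixed `x(t)`, the sum
`∑_j y_j f_j(x)` is distributed like `t^e u` with a variable `u ∈ ℂ⟦t⟧` (in the local case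
`u ∈ t ℂ⟦t⟧`). So the order of `F` is `k` if `k < e` (if `k ≤ e`), and otherwise, for fixed `x(t)` and
`z(t)`, it is distributed like `e + ord u`. Hence
`Z_F = ∑_e z_e W_e T^e U + ∑_k w_k V_(k + 1) T^k`, where `U = (1 - L⁻¹) / (1 - L⁻¹ T)`; in the local case,
`Z_F = ∑_e z_e W_(e + 1) T^e U + ∑_k w_k V_k T^k`, where `U = (L - 1) L⁻¹ T / (1 - L⁻¹ T)`. -/
noncomputable def zTS (L : Mˣ) (loc : Bool) (Z W : PowerSeries M) : PowerSeries M :=
  bif loc then cw Z (shf (vol W)) * zLine L true 1 + cw (vol Z) W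
    else cw Z (vol W) * zLine L false 1 + cw (shf (vol Z)) W

/-- the unit `L` of `ℤ[L, L⁻¹]` -/
noncomputable def LZ : (LaurentPolynomial ℤ)ˣ :=
  ⟨LaurentPolynomial.T 1, LaurentPolynomial.T (-1), by
    rw [← LaurentPolynomial.T_add]; simp, by
    rw [← LaurentPolynomial.T_add]; simp⟩

/-- the change of the ring of the coefficients, from `ℤ[L, L⁻¹]` to `M` -/
noncomputable def toM (L : Mˣ) : PowerSeries (LaurentPolynomial ℤ) →+* PowerSeries M :=
  PowerSeries.map (LaurentPolynomial.eval₂ (Int.castRingHom M) L)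

end series

/-- Over `ℤ[L, L⁻¹]`: the series `(1 - L⁻¹ T) ∑ V_e T^e` has no denominators `1 - L⁻ⁿ Tⁿ`. For the motivic
zeta function `Z` this means that it has at most a simple pole at `s = -1`. -/
def Simple (Z : PowerSeries (LaurentPolynomial ℤ)) : Prop :=
  (1 - PowerSeries.C ((LZ⁻¹ : (LaurentPolynomial ℤ)ˣ) : LaurentPolynomial ℤ) * PowerSeries.X) *
    vol Z ∈ DenRing LZ fun a n => n ≠ a

/-! ## Functional equations -/

/-- `H(x) b(s₁ + … + s_r) f₁ ^ s₁ ⋯ f_r ^ s_r
  = ∑_c P_c (∏_{c_j < 0} binom (s_j) (-c_j)) f₁ ^ (s₁ + c₁) ⋯ f_r ^ (s_r + c_r)`, `c₁ + … + c_r = 1`,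
with `P_c` in the Weyl algebra with the parameters `s_j`, at all natural numbers `s_j`. -/
def LocEq {σ ι : Type} [Fintype ι] (H : MvPolynomial σ ℂ) (f : ι → MvPolynomial σ ℂ)
    (b : Polynomial ℂ) : Prop :=
  ∃ (S : Finset (ι → ℤ)) (P : (ι → ℤ) → ((ι →₀ ℕ) →₀ weyl σ)),
    (∀ c ∈ S, ∑ j, c j = 1) ∧
    ∀ s : ι → ℕ,
      H * (C (b.eval ((∑ j, s j : ℕ) : ℂ)) * ∏ j, f j ^ s j) =
        ∑ c ∈ S, applyAt (P c) s
          (C ((∏ j, (if c j < 0 then (s j).choose (-c j).toNat else 1) : ℕ) : ℂ) *
            ∏ j, f j ^ ((s j : ℤ) + c j).toNat)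

/-- `g` is not a unit (at the origin: `g(0) = 0`). -/
def NonUnit (loc : Bool) {σ : Type} (g : MvPolynomial σ ℂ) : Prop :=
  bif loc then constantCoeff g = 0 else ¬ IsUnit g

/-- `-1` is a double root of all the `b` in the functional equations of `g` (at the origin: in all
equations `H b(s) g ^ s = P(s) g ^ (s + 1)` with `H(0) ≠ 0`). -/
def DoubleRoot (loc : Bool) {σ : Type} (g : MvPolynomial σ ℂ) : Prop :=
  bif loc then ∀ (H : MvPolynomial σ ℂ) (b : Polynomial ℂ), LocEq H (fun _ : Fin 1 => g) b →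
      eval 0 H ≠ 0 → (Polynomial.X - Polynomial.C (-1)) ^ 2 ∣ b
    else ∀ b : Polynomial ℂ, IsFunctionalEq (fun _ : Fin 1 => g) b →
      (Polynomial.X - Polynomial.C (-1)) ^ 2 ∣ b

/-! ## Ideals of minors -/

/-- the Pfaffian, expanded along the first row -/
def pfaff {R : Type} [CommRing R] : (n : ℕ) → Matrix (Fin n) (Fin n) R → R
  | 0, _ => 1
  | 1, _ => 0
  | (n + 2), A => ∑ j : Fin (n + 1), (-1) ^ (j : ℕ) * A 0 j.succ *
      pfaff n (A.submatrix (fun k => (j.succAbove k).succ) (fun k => (j.succAbove k).succ))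

/-- the generic skew symmetric matrix -/
noncomputable def skewM (n : ℕ) :
    Matrix (Fin n) (Fin n) (MvPolynomial {q : Fin n × Fin n // q.1 < q.2} ℂ) :=
  Matrix.of fun i j => if h : i < j then X ⟨(i, j), h⟩ else if h : j < i then - X ⟨(j, i), h⟩ else 0

/-- The minors of size `p` of the generic, or generic symmetric, matrix; the Pfaffians of size `2 p` of
the generic skew symmetric matrix. -/
noncomputable def mins : (S : MSpace) → (p : ℕ) → S.Idx p → MvPolynomial S.Var ℂ
  | MSpace.gen m n, _ => fun rc => ((Matrix.of fun i j => X (i, j) :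
      Matrix (Fin m) (Fin n) (MvPolynomial (Fin m × Fin n) ℂ)).submatrix rc.1 rc.2).det
  | MSpace.sym n, _ => fun rc => ((Matrix.of fun i j => X s(i, j) :
      Matrix (Fin n) (Fin n) (MvPolynomial (Sym2 (Fin n)) ℂ)).submatrix rc.1 rc.2).det
  | MSpace.skew n, p => fun r : Fin (2 * p) ↪o Fin n => pfaff (2 * p) ((skewM n).submatrix r r)

/-- the maximal minors of the `p × (N + 1 - p)` Hankel matrix in the variables `x_0, …, x_{N - 1}` -/
noncomputable def hank (N p : ℕ) (J : Fin p ↪o Fin (N + 1 - p)) : MvPolynomial (Fin N) ℂ :=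
  (Matrix.of fun i j : Fin p => (X (⟨(i : ℕ) + J j, by
    have := i.2; have := (J j).2; omega⟩ : Fin N) : MvPolynomial (Fin N) ℂ)).det

/-- The pairs `(N_d, ν_d)` of the ideal `∏_t I_{p t}`, `I_p` the ideal of the minors of size `p`
(Pfaffians of size `2 p`) of the generic matrix, or of the generic symmetric (skew symmetric) matrix:
`ν_d` is the codimension of the locus of the matrices of rank at most `d` (at most `2 d`), and
`N_d = ∑_t max (p t - d, 0)` is the multiplicity of the ideal along it. -/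
def DetP (S : MSpace) {T : ℕ} (p : Fin T → ℕ) (a n : ℕ) : Prop :=
  ∃ d : Fin S.rk, a = ∑ t, (p t - d) ∧ n = S.codim d

/-- The pairs `(N_d, ν_d)` of the ideal `∏_t I_{p t}`, `I_p` the ideal of the maximal minors of the
`p × (N + 1 - p)` Hankel matrix in the variables `x_0, …, x_{N - 1}`: `ν_d = N - 2 d` is the
codimension of the locus of the Hankel matrices of rank at most `d`, and `N_d = ∑_t max (p t - d, 0)`. -/
def HankP (N : ℕ) {T : ℕ} (p : Fin T → ℕ) (a n : ℕ) : Prop :=
  ∃ d : ℕ, a = ∑ t, (p t - d) ∧ n = N - 2 * d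

/-- The number `-n / a` comes from a Rees divisor `E` of the ideal of the family `f` (a divisor which
is not contracted in the blow-up of the ideal), see `FromRees`: `n / a = (k_E + 1 + l) / N_E`, where
`k_E` is the multiplicity of `E` in the relative canonical divisor, `N_E` is the order of the ideal
along `E`, and `l < N_E` is the order along `E` of some polynomial (for instance `1`, with `l = 0`). If
`loc = true`, `E` is required to meet the fibre over the origin: for every polynomial `H` with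
`H(0) ≠ 0` there is a chart at a general point of such an `E`, over a point at which `H` does not
vanish. -/
def ReesP (loc : Bool) {σ κ : Type} [Fintype σ] [DecidableEq σ] [Fintype κ] [DecidableEq κ]
    (f : κ → MvPolynomial σ ℂ) (a n : ℕ) : Prop :=
  ∀ H : MvPolynomial σ ℂ, (bif loc then constantCoeff H ≠ 0 else H = 1) →
    FromRees (fun _ : Unit => f) (fun _ => 1) H n a

/-! ## The classes -/

/-- The Thom-Sebastiani sum `∑_j y_j f_j(x) + g(z)`, with the variables `y_j`, `x` and `z`. -/
@[reducible] noncomputable def sumTS (A : Fam) (τ : Type) (g : MvPolynomial τ ℂ) : Fam :=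
  ⟨(A.ι ⊕ A.σ) ⊕ τ, Fin 1, fun _ =>
    rename Sum.inl (∑ j, X (Sum.inl j) * rename Sum.inr (A.f j) : MvPolynomial (A.ι ⊕ A.σ) ℂ) +
      rename Sum.inr g⟩

/-- `Cl L false A Z`: the ideal `I` generated by the family `A` is in the class described by the
following rules, and `Z = ∫ T^(ord φ^* I) dμ` is its motivic zeta function, the integral over all
arcs `φ` of the affine space, the set of which has the volume `1`. `Cl L true A Z`: the germ of `I` at
the origin is in the class, and `Z` is the integral over the arcs with the origin `0`, the set of which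
has the volume `1`. The series of the volumes of the sets `ord φ^* I ≥ e` is `vol Z`. -/
inductive Cl {M : Type} [CommRing M] (L : Mˣ) : Bool → Fam → PowerSeries M → Prop
  /-- the class `MG` of the starting files (global) -/
  | ofMG (A : Fam) (Z : PowerSeries M) (h : MG L A Z) : Cl L false A Z
  /-- the class `GermLin` of the starting files (at the origin) -/
  | ofGermLin (A : Fam) (Z : PowerSeries M) (h : GermLin L A Z) : Cl L true A Z
  /-- an ideal, not zero, such that the series of the volumes of the sets `ord φ^* I ≥ e` has only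
  denominators `1 - L⁻ⁿ Tᵃ` which belong to Rees divisors -/
  | rees (loc : Bool) (σ κ : Type) [Fintype σ] [DecidableEq σ] [Fintype κ] [DecidableEq κ]
      (f : κ → MvPolynomial σ ℂ) (hf : ∃ j, f j ≠ 0) (Z : PowerSeries M)
      (hZ : vol Z ∈ DenRing L (ReesP loc f)) : Cl L loc ⟨σ, κ, f⟩ Z
  /-- a product of ideals of minors of generic or generic symmetric matrices, or of Pfaffians -/
  | det (S : MSpace) (T : ℕ) (p : Fin T → ℕ) (hp : ∀ t, S.Small (p t)) (Z : PowerSeries M)
      (hZ : vol Z ∈ DenRing L (DetP S p)) :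
      Cl L false ⟨S.Var, (t : Fin T) → S.Idx (p t), fun j => ∏ t, mins S (p t) (j t)⟩ Z
  /-- a product of ideals of minors of generic Hankel matrices -/
  | hankel (N T : ℕ) (p : Fin T → ℕ) (hp : ∀ t, 2 * p t < N) (Z : PowerSeries M)
      (hZ : vol Z ∈ DenRing L (HankP N p)) :
      Cl L false ⟨Fin N, (t : Fin T) → Fin (p t) ↪o Fin (N + 1 - p t),
        fun j => ∏ t, hank N (p t) (j t)⟩ Z
  /-- an ideal generated by forms of the same degree `d`: the arcs with the origin `0` are the
  `t φ`, and `ord (t φ)^* I = d + ord φ^* I` -/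
  | cone (A : Fam) (d : ℕ) (hd : ∀ j, (A.f j).IsHomogeneous d) (Z : PowerSeries M)
      (h : Cl L false A Z) : Cl L true A (PowerSeries.X ^ d * Z)
  /-- the same, in the other direction -/
  | uncone (A : Fam) (d : ℕ) (hd : ∀ j, (A.f j).IsHomogeneous d) (Z : PowerSeries M)
      (h : Cl L true A (PowerSeries.X ^ d * Z)) : Cl L false A Z
  /-- the sum of two ideals in disjoint sets of variables: `ord` is the minimum of the orders -/
  | sum (loc : Bool) (A B : Fam) (Z W : PowerSeries M) (hA : Cl L loc A Z) (hB : Cl L loc B W) :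
      Cl L loc (A.sum B) (sumSeries Z W)
  /-- the product of two ideals in disjoint sets of variables: the orders are added -/
  | mul (loc : Bool) (A B : Fam) (Z W : PowerSeries M) (hA : Cl L loc A Z)
      (hB : Cl L loc B W) : Cl L loc (A.mul B) (Z * W)
  /-- the hypersurface `h(x) ∏_t (∑_j y_{t, j} f_{t, j}(x)) ^ a_t = 0`, with further variables
  `y_{t, j}`, if the ideal `h ∏_t (f_{t, j})_j ^ a_t` is in the class. Let `φ = (x(t), y(t))` be an arc
  and `e_t = min_j ord f_{t, j}(x(t)) < ∞`. Then `∑_j y_{t, j} f_{t, j} = t^(e_t) ℓ_t(y_t)` with a linear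
  form `ℓ_t`, one of whose coefficients is a unit; for fixed `x(t)`, the `ℓ_t(y_t)` are distributed
  like independent variables. -/
  | form (loc : Bool) (σ τ : Type) [Fintype τ] [DecidableEq τ] [Nonempty τ] (κ : τ → Type)
      [∀ t, Fintype (κ t)] (a : τ → ℕ) (ha : ∀ t, 0 < a t) (h : MvPolynomial σ ℂ)
      (f : (t : τ) → κ t → MvPolynomial σ ℂ) (Z : PowerSeries M)
      (hA : Cl L loc (genFam a h f) Z) :
      Cl L loc (formFam a h f) (Z * ∏ t, zLine L loc (a t))
  /-- the powers of a principal ideal: the orders are multiplied by `k` -/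
  | pow (loc : Bool) (σ : Type) (g : MvPolynomial σ ℂ) (k : ℕ) (hk : k ≠ 0) (Z : PowerSeries M)
      (hA : Cl L loc ⟨σ, Fin 1, fun _ => g⟩ Z) :
      Cl L loc ⟨σ, Fin 1, fun _ => g ^ k⟩ (PowerSeries.expand k hk Z)
  /-- the variables and the generators may be indexed differently -/
  | equiv (loc : Bool) (A B : Fam) (i : A.σ ≃ B.σ) (k : A.ι ≃ B.ι)
      (h : ∀ j, B.f (k j) = rename i (A.f j)) (Z : PowerSeries M) (hA : Cl L loc A Z) :
      Cl L loc B Z
  /-- polynomial automorphisms `Φ` of the affine space preserve the volumes (their Jacobian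
  determinants are constant); at the origin, `Φ` is required to preserve the origin -/
  | auto (loc : Bool) (A : Fam) (Φ : MvPolynomial A.σ ℂ ≃ₐ[ℂ] MvPolynomial A.σ ℂ)
      (h0 : loc = true → ∀ i, constantCoeff (Φ (X i)) = 0) (Z : PowerSeries M)
      (hA : Cl L loc A Z) : Cl L loc ⟨A.σ, A.ι, fun j => Φ (A.f j)⟩ Z

/-- Two classes: `ClTS L loc false A Z` for ideals, and `ClTS L loc true A Z` for principal ideals
(hypersurfaces), together with their motivic zeta functions (`loc = false`; the volume of all arcs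
is `1`), or with their motivic zeta functions at the origin (`loc = true`; the volume of the arcs with
the origin `0` is `1`). They are the smallest classes with the following properties. -/
inductive ClTS {M : Type} [CommRing M] (L : Mˣ) : Bool → Bool → Fam → PowerSeries M → Prop
  /-- the ideals in the class `Cl` -/
  | ideal (loc : Bool) (A : Fam) (Z : PowerSeries M) (h : Cl L loc A Z) : ClTS L loc false A Z
  /-- the hypersurface `x ^ m = 0` in one variable -/
  | line (loc : Bool) (m : ℕ) (hm : 1 ≤ m) :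
      ClTS L loc true ⟨Fin 1, Fin 1, fun _ => X 0 ^ m⟩ (zLine L loc m)
  /-- the hypersurfaces in the class `Cl`, computed over `ℤ[L, L⁻¹]`, whose motivic zeta function has at
  most a simple pole at `-1` -/
  | simple (loc : Bool) (σ : Type) (g : MvPolynomial σ ℂ)
      (Z : PowerSeries (LaurentPolynomial ℤ)) (h : Cl LZ loc ⟨σ, Fin 1, fun _ => g⟩ Z)
      (h0 : NonUnit loc g) (h1 : Simple Z) : ClTS L loc true ⟨σ, Fin 1, fun _ => g⟩ (toM L Z)
  /-- a plane curve `g = 0` such that the contributions of the points in `S`, computed by blowing up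
  points, have at most a simple pole at `-1`; see `PlaneVol` -/
  | curve (g : MvPolynomial (Fin 2) ℂ) (hg : g ≠ 0) (h0 : ¬ IsUnit g) (u₀ : M) (r : ℕ)
      (h : Fin r → MvPolynomial (Fin 2) ℂ) (m : Fin r → ℕ) (w : Fin r → M)
      (S : Finset (Fin 2 → ℂ)) (ZP : (Fin 2 → ℂ) → PowerSeries (LaurentPolynomial ℤ))
      (hC : ∀ i, IsCurve (fun _ : Fin 1 => g) (h i) (m i))
      (hP : ∀ P ∈ S, MotLocal LZ (fun _ : Fin 1 => translate P g) 0 1 0 1 (ZP P) ∧
        Simple (ZP P))
      (htot : u₀ + ∑ i, w i + (S.card : M) = (L : M) ^ 2) :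
      ClTS L false true ⟨Fin 2, Fin 1, fun _ => g⟩ (PowerSeries.C (((L⁻¹ ^ 2 : Mˣ) : M)) *
        (PowerSeries.C u₀ + ∑ i, PowerSeries.C (w i) * mf L (m i) 1 + ∑ P ∈ S, toM L (ZP P)))
  /-- the hypersurfaces for which `-1` is a double root -/
  | double (loc : Bool) (σ : Type) (g : MvPolynomial σ ℂ) (Z : PowerSeries M)
      (h : ClTS L loc false ⟨σ, Fin 1, fun _ => g⟩ Z) (h1 : DoubleRoot loc g) :
      ClTS L loc true ⟨σ, Fin 1, fun _ => g⟩ Z
  /-- a hypersurface is a principal ideal -/
  | hyp (loc : Bool) (σ : Type) (g : MvPolynomial σ ℂ) (Z : PowerSeries M)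
      (h : ClTS L loc true ⟨σ, Fin 1, fun _ => g⟩ Z) : ClTS L loc false ⟨σ, Fin 1, fun _ => g⟩ Z
  /-- the hypersurface `h(x) ∏_t (∑_j y_{t, j} f_{t, j}(x)) ^ a_t = 0`, with further variables
  `y_{t, j}`, if the ideal `h ∏_t (f_{t, j})_j ^ a_t` is in the class -/
  | form (loc : Bool) (σ τ : Type) [Fintype τ] [DecidableEq τ] [Nonempty τ] (κ : τ → Type)
      [∀ t, Fintype (κ t)] (a : τ → ℕ) (ha : ∀ t, 0 < a t) (h : MvPolynomial σ ℂ)
      (f : (t : τ) → κ t → MvPolynomial σ ℂ) (Z : PowerSeries M)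
      (hA : ClTS L loc false (genFam a h f) Z) :
      ClTS L loc true (formFam a h f) (Z * ∏ t, zLine L loc (a t))
  /-- the Thom-Sebastiani sum `∑_j y_j f_j(x) + g(z)` in disjoint sets of variables -/
  | ts (loc : Bool) (A : Fam) (τ : Type) (g : MvPolynomial τ ℂ) (Z W : PowerSeries M)
      (hA : ClTS L loc false A Z) (hg : ClTS L loc true ⟨τ, Fin 1, fun _ => g⟩ W) :
      ClTS L loc true (sumTS A τ g) (zTS L loc Z W)
  /-- variables which do not occur may be dropped -/
  | drop (loc : Bool) (σ κ : Type) (g : MvPolynomial σ ℂ) (Z : PowerSeries M)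
      (h : ClTS L loc true ⟨σ ⊕ κ, Fin 1, fun _ => rename Sum.inl g⟩ Z) :
      ClTS L loc true ⟨σ, Fin 1, fun _ => g⟩ Z
  /-- the variables of a hypersurface may be indexed differently -/
  | equivH (loc : Bool) (σ τ : Type) (e : σ ≃ τ) (g : MvPolynomial σ ℂ) (Z : PowerSeries M)
      (h : ClTS L loc true ⟨σ, Fin 1, fun _ => g⟩ Z) :
      ClTS L loc true ⟨τ, Fin 1, fun _ => rename e g⟩ Z
  /-- the sum of two ideals in disjoint sets of variables -/
  | sum (loc : Bool) (A B : Fam) (Z W : PowerSeries M) (hA : ClTS L loc false A Z)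
      (hB : ClTS L loc false B W) : ClTS L loc false (A.sum B) (sumSeries Z W)
  /-- the product of two ideals in disjoint sets of variables -/
  | mul (loc : Bool) (A B : Fam) (Z W : PowerSeries M) (hA : ClTS L loc false A Z)
      (hB : ClTS L loc false B W) : ClTS L loc false (A.mul B) (Z * W)
  /-- the powers of a principal ideal -/
  | pow (loc : Bool) (σ : Type) (g : MvPolynomial σ ℂ) (k : ℕ) (hk : k ≠ 0) (Z : PowerSeries M)
      (hA : ClTS L loc false ⟨σ, Fin 1, fun _ => g⟩ Z) :
      ClTS L loc false ⟨σ, Fin 1, fun _ => g ^ k⟩ (PowerSeries.expand k hk Z)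
  /-- an ideal generated by forms of the same degree -/
  | cone (A : Fam) (d : ℕ) (hd : ∀ j, (A.f j).IsHomogeneous d) (Z : PowerSeries M)
      (h : ClTS L false false A Z) : ClTS L true false A (PowerSeries.X ^ d * Z)
  /-- the same, in the other direction -/
  | uncone (A : Fam) (d : ℕ) (hd : ∀ j, (A.f j).IsHomogeneous d) (Z : PowerSeries M)
      (h : ClTS L true false A (PowerSeries.X ^ d * Z)) : ClTS L false false A Z
  /-- the variables and the generators may be indexed differently -/
  | equiv (loc : Bool) (A B : Fam) (i : A.σ ≃ B.σ) (k : A.ι ≃ B.ι)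
      (h : ∀ j, B.f (k j) = rename i (A.f j)) (Z : PowerSeries M) (hA : ClTS L loc false A Z) :
      ClTS L loc false B Z
  /-- polynomial automorphisms of the affine space (which preserve the origin, if `loc = true`) -/
  | auto (loc : Bool) (A : Fam) (Φ : MvPolynomial A.σ ℂ ≃ₐ[ℂ] MvPolynomial A.σ ℂ)
      (h0 : loc = true → ∀ i, constantCoeff (Φ (X i)) = 0) (Z : PowerSeries M)
      (hA : ClTS L loc false A Z) : ClTS L loc false ⟨A.σ, A.ι, fun j => Φ (A.f j)⟩ Z

end Pool.Agent.Zk74.TS
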