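import Pool.Agent.Zk74.TS.Defs
import Pool.Agent.Zk74.MC.Main
import Pool.Agent.Y230.TH.Top
import Pool.Agent.R852.TL.Main
import Pool.Agent.Y230.TL.A
import Pool.Agent.Y230.TL.U
import Pool.Agent.Y64.TL.ExpB
import Pool.Agent.Y475.TL.L
import Pool.Agent.Y448.TL.J

set_option autoImplicit false
set_option linter.unusedSectionVars false
set_option linter.unusedVariables false

/-! # Reduced forced roots -/

namespace Pool.Agent.Zk74.TS

open MvPolynomial Pool.Agent.W574.SM Pool.Agent.W574.MO Pool.Agent.W574.CN Pool.Agent.W574.RO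
open Pool.Agent.W574.LM Pool.Agent.W574.HS
open Pool.Agent.Y229 Pool.Agent.R852.TP Pool.Agent.R852.TL Pool.Agent.Zk74.MC
open Pool.Agent.Y230.PS (FM single_of_isB)
open Pool.Agent.Y230.TH (tsFam fm_one dl dl_eq fm_ts fm_drop tsFam_ne)
open Pool.Agent.Y230.TL (StJ StU StL RF sf_minus_one rf_tsFam rf_drop rf_equiv zero_of_sf)
open Pool.Agent.R852.PP (cntR one_le_cntR)

theorem stJ : StJ := Pool.Agent.Y448.TL.tJ Pool.Agent.Y230.TL.tA Pool.Agent.Y64.TL.tB
theorem stL : StL := Pool.Agent.Y475.TL.tL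

/-- the reduced forced roots, global and at the origin -/
def RR (loc : Bool) {σ ι : Type} [Fintype ι] (f : ι → MvPolynomial σ ℂ) (α : ℂ) : Prop :=
  bif loc then ∀ j, RF (f j) 0 α else FM f α (1 + dl α)

theorem fm_dl {σ ι : Type} [Fintype ι] {f : ι → MvPolynomial σ ℂ} {α : ℂ} (h : α ≠ -1) :
    FM f α (1 + dl α) ↔ Forced f α := by
  rw [dl_eq, if_neg h, add_zero]
  exact fm_one f α

section single

variable {σ : Type}

theorem fr_of_rr (loc : Bool) (g : MvPolynomial σ ℂ) (α : ℂ) (h : RR loc (fun _ : Fin 1 => g) α) :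
    FR loc (fun _ : Fin 1 => g) α := by
  cases loc with
  | false => exact (fm_one _ _).1 (FM.mono h (Nat.le_add_right _ _))
  | true => exact stL.sf_of_rf g 0 α (h 0)

theorem rr_of_fr (loc : Bool) (g : MvPolynomial σ ℂ) (α : ℂ) (hα : α ≠ -1)
    (h : FR loc (fun _ : Fin 1 => g) α) : RR loc (fun _ : Fin 1 => g) α := by
  cases loc with
  | false => exact (fm_dl hα).2 h
  | true => exact fun _ => stL.rf_of_sf g 0 α hα h

theorem rr_of_double [Finite σ] (loc : Bool) (g : MvPolynomial σ ℂ) (hg : g ≠ 0)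
    (h : Double loc g) : RR loc (fun _ : Fin 1 => g) (-1) := by
  cases loc with
  | false =>
    change FM (fun _ : Fin 1 => g) (-1) (1 + dl (-1))
    rw [dl_eq, if_pos rfl]
    exact h
  | true => exact fun _ => rf_of_double g hg h

theorem fr_minus_one [Finite σ] (loc : Bool) (g : MvPolynomial σ ℂ) (hg : g ≠ 0)
    (h0 : NU loc g) : FR loc (fun _ : Fin 1 => g) (-1) := by
  classical
  cases loc with
  | false =>
    intro b hb
    obtain ⟨P, hP⟩ := isB_of_single g b hb
    refine minus_one g 1 hg (fun hd => h0 (isUnit_of_dvd_one hd)) b P fun s => ?_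
    rw [one_mul]
    exact hP s
  | true => exact sf_minus_one g hg h0

theorem fr_minus_of_double [Finite σ] (loc : Bool) (g : MvPolynomial σ ℂ) (hg : g ≠ 0)
    (h : Double loc g) : FR loc (fun _ : Fin 1 => g) (-1) :=
  fr_of_rr loc g _ (rr_of_double loc g hg h)

theorem rr_drop (loc : Bool) {κ : Type} (g : MvPolynomial σ ℂ) (α : ℂ)
    (h : RR loc (fun _ : Fin 1 => (rename Sum.inl g : MvPolynomial (σ ⊕ κ) ℂ)) α) :
    RR loc (fun _ : Fin 1 => g) α := by
  cases loc with
  | false => exact fm_drop (κ := κ) g α _ h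
  | true => exact fun j => rf_drop stL (κ := κ) g α (h j)

theorem rr_equiv (loc : Bool) {τ : Type} (e : σ ≃ τ) (g : MvPolynomial σ ℂ) (α : ℂ)
    (h : RR loc (fun _ : Fin 1 => g) α) : RR loc (fun _ : Fin 1 => rename e g) α := by
  cases loc with
  | false =>
    intro b hb
    exact h b (functionalEq_equiv e (Equiv.refl (Fin 1)) (fun _ : Fin 1 => g)
      (fun _ : Fin 1 => rename e g) (fun _ => rfl) b hb)
  | true => exact fun j => rf_equiv stL e g α (h j)

/-- **The reduced forced roots of a Thom-Sebastiani sum.** -/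
theorem rr_ts (loc : Bool) (A : Fam) (τ : Type) (g : MvPolynomial τ ℂ) (hA : ∃ j, A.f j ≠ 0)
    (hg : g ≠ 0) (α β : ℂ) (h1 : FR loc A.f α) (h2 : RR loc (fun _ : Fin 1 => g) β) :
    RR loc (tsFam A τ g).f (α + β) := by
  classical
  cases loc with
  | false =>
    intro b hb
    obtain ⟨b', hb', h3⟩ := fm_ts A τ g hA hg b hb
    have h4 := h3 α β 1 1 le_rfl le_rfl ((fm_one _ _).2 h1) h2
    have h5 : Polynomial.X - Polynomial.C (α + β) ∣ b' := by simpa using h4
    by_cases hs : α + β = -1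
    · rw [dl_eq, if_pos hs, hb', pow_succ, pow_one]
      refine mul_dvd_mul ?_ h5
      rw [hs, map_neg, map_one, sub_neg_eq_add]
    · rw [dl_eq, if_neg hs, hb', add_zero, pow_one]
      exact h5.mul_left _
  | true => exact fun j => rf_tsFam stJ stL A τ g hg α β h1 (h2 0)

theorem fr_ts (loc : Bool) (A : Fam) (τ : Type) (g : MvPolynomial τ ℂ) (hfin : Finite A.σ)
    (hfin' : Finite τ) (hA : ∃ j, A.f j ≠ 0)
    (hg : g ≠ 0) (h : FR loc (fun _ : Fin 1 => g) (-1)) : FR loc (tsFam A τ g).f (-1) := by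
  classical
  cases loc with
  | false =>
    intro b hb
    obtain ⟨b', hb', -⟩ := fm_ts A τ g hA hg b hb
    rw [hb', Polynomial.eval_mul, Polynomial.eval_add, Polynomial.eval_X, Polynomial.eval_one,
      neg_add_cancel, zero_mul]
  | true =>
    have h1 : Finite ((A.ι ⊕ A.σ) ⊕ τ) := inferInstance
    refine sf_minus_one ((tsFam A τ g).f 0) (tsFam_ne A τ g hg) ?_
    have h2 := zero_of_sf g (-1) h
    change constantCoeff (rename Sum.inl (∑ j, X (Sum.inl j) * rename Sum.inr (A.f j) :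
      MvPolynomial (A.ι ⊕ A.σ) ℂ) + rename Sum.inr g : MvPolynomial ((A.ι ⊕ A.σ) ⊕ τ) ℂ) = 0
    rw [map_add, constantCoeff_rename, constantCoeff_rename, h2, add_zero, map_sum]
    refine Finset.sum_eq_zero fun j _ => ?_
    rw [map_mul, constantCoeff_X, zero_mul]

end single

section form

variable {σ τ : Type} [Fintype τ] [DecidableEq τ] [Nonempty τ] {κ : τ → Type}
  [∀ t, Fintype (κ t)]

theorem two_le_cntR (a : τ → ℕ) (t0 t1 : τ) (h : t0 ≠ t1) (h0 : a t0 = 1) (h1 : a t1 = 1) :
    2 ≤ cntR a (-1) := by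
  classical
  unfold cntR
  rw [← Finset.card_pair h]
  refine Finset.card_le_card fun t ht => ?_
  rw [Finset.mem_insert, Finset.mem_singleton] at ht
  rw [Finset.mem_filter]
  refine ⟨Finset.mem_univ _, 0, ?_, ?_⟩
  · rcases ht with rfl | rfl
    · rw [h0]; exact Finset.mem_range.2 one_pos
    · rw [h1]; exact Finset.mem_range.2 one_pos
  · rcases ht with rfl | rfl
    · rw [h0]; push_cast; ring
    · rw [h1]; push_cast; ring

variable [Finite σ] (a : τ → ℕ) (h : MvPolynomial σ ℂ) (f : (t : τ) → κ t → MvPolynomial σ ℂ)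
  (ha : ∀ t, 0 < a t) (hne : ∃ j, (genFam a h f).f j ≠ 0)

include ha hne

theorem double_form (loc : Bool) (n : ℕ) (hn : n = 0 ∨ n = 1 ∧ FR loc (genFam a h f).f (-1))
    (h2 : 2 ≤ n + cntR a (-1)) : Double loc ((formFam a h f).f 0) := by
  classical
  cases loc with
  | false =>
    change FM (formFam a h f).f (-1) 2
    refine FM.mono (fm_form a h f ha hne (-1) n ?_) h2
    rcases hn with rfl | ⟨rfl, hn⟩
    · exact fun b hb => by rw [pow_zero]; exact one_dvd _
    · exact (fm_one _ _).2 hn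
  | true =>
    change LM (formFam a h f).f (-1) 2
    refine LM.mono (lm_form a h f ha hne (-1) n ?_) h2
    rcases hn with rfl | ⟨rfl, hn⟩
    · exact lm_zero _ _
    · exact lm_of_sf _ _ hn

theorem rr_form (loc : Bool) (α : ℂ) (h1 : FR loc (genFam a h f).f α) :
    RR loc (formFam a h f).f α := by
  obtain ⟨t0⟩ := (inferInstance : Nonempty τ)
  have hF := form_ne' a h f ha hne
  have hfin' : Finite ((Σ t, κ t) ⊕ σ) := inferInstance
  by_cases hα : α = -1
  · subst hα
    exact rr_of_double loc _ hF (double_form a h f ha hne loc 1 (Or.inr ⟨rfl, h1⟩)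
      (by have := one_le_cntR a t0 (ha t0); omega))
  · exact rr_of_fr loc _ α hα (fr_form loc a h f ha hne α h1)

/-- the strict transforms -/
theorem rr_strict (loc : Bool) (t : τ) (ht : 2 ≤ a t ∨ a t = 1 ∧ ∃ t0, t0 ≠ t ∧ a t0 = 1) :
    RR loc (formFam a h f).f (-((1 : ℕ) : ℂ) / a t) := by
  have hF := form_ne' a h f ha hne
  have hfin' : Finite ((Σ t, κ t) ⊕ σ) := inferInstance
  rcases ht with ht | ⟨ht, t0, h0, h1⟩
  · refine rr_of_fr loc _ _ (fun he => ?_) (fr_strict loc a h f ha hne t)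
    have hc : (a t : ℂ) ≠ 0 := Nat.cast_ne_zero.2 (by omega)
    rw [div_eq_iff hc, Nat.cast_one, neg_one_mul, neg_inj] at he
    have : 1 = a t := by exact_mod_cast he
    omega
  · rw [ht, Nat.cast_one, div_one]
    exact rr_of_double loc _ hF (double_form a h f ha hne loc 0 (Or.inl rfl)
      (by have := two_le_cntR a t0 t h0 h1 ht; omega))

theorem fr_form_minus (loc : Bool) : FR loc (formFam a h f).f (-1) := by
  classical
  obtain ⟨t0⟩ := (inferInstance : Nonempty τ)
  have h2 := one_le_cntR a t0 (ha t0)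
  cases loc with
  | false =>
    have h4 := fm_form a h f ha hne (-1) 0 (fun b hb => by rw [pow_zero]; exact one_dvd _)
    refine (fm_one _ _).1 (h4.mono (by omega))
  | true =>
    have hF := form_ne' a h f ha hne
    have hfin' : Finite ((Σ t, κ t) ⊕ σ) := inferInstance
    have hFne : ∃ j, (formFam a h f).f j ≠ 0 := ⟨(0 : Fin 1), hF⟩
    exact sf_of_lm _ hFne _ _ (by omega) (lm_form a h f ha hne (-1) 0 (lm_zero _ _))

end form

end Pool.Agent.Zk74.TS
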