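import Pool.Agent.Zk74.TS.Ser
import Pool.Agent.Zk74.TS.Roots

set_option autoImplicit false
set_option linter.unusedSectionVars false
set_option linter.unusedVariables false

/-! # The denominators of the motivic zeta functions of the class `MT` -/

namespace Pool.Agent.Zk74.TS

open MvPolynomial Pool.Agent.W574.SM Pool.Agent.W574.MO Pool.Agent.W574.CN Pool.Agent.W574.RO
open Pool.Agent.W574.LM Pool.Agent.W574.HS
open Pool.Agent.Y229 Pool.Agent.R852.TP Pool.Agent.R852.TL Pool.Agent.Zk74.MC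
open Pool.Agent.R852.MC (add_frac tail_prod_mem sum_ne mul_ne tail_X_pow_mul tail_expand_mem)
open Pool.Agent.Y230.PS (FM single_of_isB)
open Pool.Agent.Y230.TH (tsFam tsFam_ne)
open Pool.Agent.H628R4.TP (IsBFunction IsLocalBFunction)

/-- the denominators which belong to reduced forced roots -/
def K2 (loc : Bool) {σ ι : Type} [Fintype ι] (f : ι → MvPolynomial σ ℂ) (a n : ℕ) : Prop :=
  RR loc f (-(n : ℂ) / a)

theorem neg_one_iff {a n : ℕ} (ha : 1 ≤ a) : -(n : ℂ) / a = -1 ↔ n = a := by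
  have hc : (a : ℂ) ≠ 0 := Nat.cast_ne_zero.2 (by omega)
  rw [div_eq_iff hc, neg_one_mul, neg_inj, Nat.cast_inj]

section Aring

/-- over `ℤ[L, L⁻¹]`: simple poles -/
theorem inter_mem {K : ℕ → ℕ → Prop} (hK : ∀ a n a' n' : ℕ, 1 ≤ a → 1 ≤ a' → n * a' = n' * a →
    K a' n' → K a n) {Z : PowerSeries AA} (h1 : Z ∈ DenRing LL K)
    (h2 : Z ∈ DenRing LL fun a n => n ≠ a) : Z ∈ DenRing LL fun a n => K a n ∧ n ≠ a := by
  have key : ∀ a n : ℕ, 1 ≤ a → 1 ≤ n → ¬ (K a n ∧ n ≠ a) →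
      Z ∈ DenRing LL (fun a' n' => n * a' ≠ n' * a) := by
    intro a n ha hn hne
    by_cases hna : n = a
    · have h5 : ∀ a' n' : ℕ, 1 ≤ a' → 1 ≤ n' → n' ≠ a' → n * a' ≠ n' * a := by
        intro a' n' _ _ h3 h4
        apply h3
        rw [hna, mul_comm n' a] at h4
        exact (Nat.eq_of_mul_eq_mul_left (by omega) h4).symm
      exact denRing_mono h5 h2
    · have h5 : ∀ a' n' : ℕ, 1 ≤ a' → 1 ≤ n' → K a' n' → n * a' ≠ n' * a := by
        intro a' n' ha' _ h3 h4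
        exact hne ⟨hK a n a' n' ha ha' h4 h3, hna⟩
      exact denRing_mono h5 h1
  obtain ⟨s, hs, Q, hQ⟩ := exists_denom h1
  exact descent (fun a n => K a n ∧ n ≠ a) Z s (fun p hp => ⟨(hs p hp).1, (hs p hp).2.1⟩) key Q hQ

theorem simple_mem {K : ℕ → ℕ → Prop} (hK : ∀ a n a' n' : ℕ, 1 ≤ a → 1 ≤ a' → n * a' = n' * a →
    K a' n' → K a n) {Z : PowerSeries AA} (h1 : Z ∈ DenRing LL K) (h2 : SimpleAt Z) :
    (1 - qq LL 1 1) * Z ∈ DenRing LL fun a n => K a n ∧ n ≠ a :=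
  inter_mem hK ((DenRing LL K).mul_mem ((DenRing LL K).sub_mem (DenRing LL K).one_mem
    (qq_mem 1 1)) h1) h2

end Aring

theorem frac_eq {a n a' n' : ℕ} (ha : 1 ≤ a) (ha' : 1 ≤ a') (h : n * a' = n' * a) :
    -(n : ℂ) / a = -(n' : ℂ) / a' := by
  have hc : (a : ℂ) ≠ 0 := Nat.cast_ne_zero.2 (by omega)
  have hc' : (a' : ℂ) ≠ 0 := Nat.cast_ne_zero.2 (by omega)
  have h1 : (n : ℂ) * a' = n' * a := by exact_mod_cast h
  rw [div_eq_div_iff hc hc']
  linear_combination -h1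

theorem kr_ratio (loc : Bool) {σ ι : Type} [Fintype ι] (f : ι → MvPolynomial σ ℂ)
    (a n a' n' : ℕ) (ha : 1 ≤ a) (ha' : 1 ≤ a') (h : n * a' = n' * a) (h1 : KR loc f a' n') :
    KR loc f a n := by
  unfold KR at h1 ⊢
  rwa [frac_eq ha ha' h]

variable {M : Type} [CommRing M] {L : Mˣ}

theorem q_mem {K : ℕ → ℕ → Prop} : (1 - qq L 1 1) ∈ DenRing L K :=
  (DenRing L K).sub_mem (DenRing L K).one_mem (qq_mem 1 1)

/-- the properties of the members of the classes -/
structure Good (L : Mˣ) (loc c : Bool) (A : Fam) (Z : PowerSeries M) : Prop where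
  fin : Finite A.σ
  ne : ∃ j, A.f j ≠ 0
  tl : tail 1 Z ∈ DenRing L (KR loc A.f)
  rt : c = true → (1 - qq L 1 1) * tail 1 Z ∈ DenRing L (K2 loc A.f)
  m1 : c = true → FR loc A.f (-1)

/-- a hypersurface from the reduced series -/
theorem good_of_rt (loc : Bool) {σ : Type} (g : MvPolynomial σ ℂ) (Z : PowerSeries M)
    (hfin : Finite σ) (hg : g ≠ 0)
    (h1 : (1 - qq L 1 1) * tail 1 Z ∈ DenRing L (K2 loc (fun _ : Fin 1 => g)))
    (h2 : FR loc (fun _ : Fin 1 => g) (-1)) : Good L loc true ⟨σ, Fin 1, fun _ => g⟩ Z where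
  fin := hfin
  ne := ⟨(0 : Fin 1), hg⟩
  tl := by
    have h3 : tail 1 Z = geo L 1 1 * ((1 - qq L 1 1) * tail 1 Z) := by
      rw [← mul_assoc, mul_comm (geo L 1 1), geo_mul L le_rfl 1, one_mul]
    rw [h3]
    refine (DenRing L _).mul_mem (geo_mem le_rfl le_rfl ?_)
      (denRing_mono (fun a n _ _ h => fr_of_rr loc g _ h) h1)
    change FR loc (fun _ : Fin 1 => g) (-((1 : ℕ) : ℂ) / ((1 : ℕ) : ℂ))
    rw [Nat.cast_one, div_one]
    exact h2
  rt := fun _ => h1
  m1 := fun _ => h2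

theorem q_lineZ (loc : Bool) {K : ℕ → ℕ → Prop} :
    (1 - qq L 1 1) * lineZ L loc 1 ∈ DenRing L K := by
  have h := geo_mul L (le_refl 1) 1
  cases loc with
  | false =>
    rw [lineZ_false]
    have : (1 - qq L 1 1) * (PowerSeries.C (1 - ((L⁻¹ : Mˣ) : M)) * geo L 1 1) =
        PowerSeries.C (1 - ((L⁻¹ : Mˣ) : M)) := by
      linear_combination (PowerSeries.C (1 - ((L⁻¹ : Mˣ) : M)) : PowerSeries M) * h
    rw [this]
    exact C_mem _
  | true =>
    rw [lineZ_true]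
    have : (1 - qq L 1 1) * (PowerSeries.C (1 - ((L⁻¹ : Mˣ) : M)) * PowerSeries.X * geo L 1 1) =
        PowerSeries.C (1 - ((L⁻¹ : Mˣ) : M)) * PowerSeries.X := by
      linear_combination
        (PowerSeries.C (1 - ((L⁻¹ : Mˣ) : M)) * PowerSeries.X : PowerSeries M) * h
    rw [this]
    exact (DenRing L K).mul_mem (C_mem _) X_mem

theorem q_tail_line (loc : Bool) {K : ℕ → ℕ → Prop} :
    (1 - qq L 1 1) * tail 1 (lineZ L loc 1) ∈ DenRing L K := by
  have h := geo_mul L (le_refl 1) 1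
  cases loc with
  | false =>
    change (1 - qq L 1 1) * tail 1 (PowerSeries.C (1 - ((L⁻¹ : Mˣ) : M)) * geo L 1 1) ∈ _
    rw [tail_power 1 le_rfl, Finset.sum_range_one, pow_zero, mul_one]
    have e : PowerSeries.C ((L⁻¹ : Mˣ) : M) * PowerSeries.X = qq L 1 1 := (qq11 L).symm
    rw [e]
    have : (1 - qq L 1 1) * (1 + qq L 1 1 * geo L 1 1) = 1 := by
      linear_combination qq L 1 1 * h
    rw [this]
    exact (DenRing L K).one_mem
  | true =>
    change (1 - qq L 1 1) * tail 1 (mf L 1 1) ∈ _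
    rw [tail_mf 1 le_rfl, Finset.sum_range_one, pow_zero, mul_one]
    have : (1 - qq L 1 1) * (1 + PowerSeries.X * geo L 1 1) = (1 - qq L 1 1) + PowerSeries.X := by
      linear_combination PowerSeries.X * h
    rw [this]
    exact (DenRing L K).add_mem q_mem X_mem

/-- the factor of a strict transform of multiplicity one -/
theorem rt_mul_line (loc : Bool) {K : ℕ → ℕ → Prop} (Z : PowerSeries M)
    (hZ : tail 1 Z ∈ DenRing L K) :
    (1 - qq L 1 1) * tail 1 (Z * lineZ L loc 1) ∈ DenRing L K := by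
  rw [tail_mul]
  have e : (1 - qq L 1 1) * (tail 1 (lineZ L loc 1) + PowerSeries.X * lineZ L loc 1 *
      (tail 1 Z - Z)) = (1 - qq L 1 1) * tail 1 (lineZ L loc 1) +
        PowerSeries.X * ((1 - qq L 1 1) * lineZ L loc 1) * (tail 1 Z - Z) := by ring
  rw [e]
  exact (DenRing L K).add_mem (q_tail_line loc) ((DenRing L K).mul_mem
    ((DenRing L K).mul_mem X_mem (q_lineZ loc)) ((DenRing L K).sub_mem hZ (mem_of_tail hZ)))

theorem good_form (loc : Bool) {σ τ : Type} [Fintype τ] [DecidableEq τ] [Nonempty τ]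
    {κ : τ → Type} [∀ t, Fintype (κ t)] (a : τ → ℕ) (ha : ∀ t, 0 < a t) (h : MvPolynomial σ ℂ)
    (f : (t : τ) → κ t → MvPolynomial σ ℂ) (Z : PowerSeries M)
    (ih : Good L loc false (genFam a h f) Z) :
    Good L loc true (formFam a h f) (Z * ∏ t, lineZ L loc (a t)) := by
  classical
  obtain ⟨hfin, hne, hZ, -, -⟩ := ih
  have hfin0 : Finite σ := hfin
  have hF := form_ne' a h f ha hne
  refine good_of_rt loc _ _ (inferInstanceAs (Finite ((Σ t, κ t) ⊕ σ))) hF ?_
    (fr_form_minus a h f ha hne loc)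
  have hJ : tail 1 Z ∈ DenRing L (K2 loc (formFam a h f).f) :=
    denRing_mono (fun x n _ _ h1 => rr_form a h f ha hne loc _ h1) hZ
  by_cases h1 : ∃ t0, a t0 = 1
  · obtain ⟨t0, h0⟩ := h1
    have e : Z * ∏ t, lineZ L loc (a t) =
        (Z * ∏ t ∈ Finset.univ.erase t0, lineZ L loc (a t)) * lineZ L loc 1 := by
      rw [← Finset.mul_prod_erase Finset.univ _ (Finset.mem_univ t0), h0]
      ring
    rw [e]
    refine rt_mul_line loc _ (tail_mul_mem hJ (tail_prod_mem _ _ fun t ht => ?_))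
    have ht0 : t ≠ t0 := Finset.ne_of_mem_erase ht
    refine tail_lineZ loc (a t) (ha t) ?_
    refine rr_strict a h f ha hne loc t ?_
    rcases Nat.lt_or_ge 1 (a t) with h3 | h3
    · exact Or.inl h3
    · exact Or.inr ⟨by have := ha t; omega, t0, ht0.symm, h0⟩
  · push Not at h1
    refine (DenRing L _).mul_mem q_mem (tail_mul_mem hJ (tail_prod_mem _ _ fun t ht => ?_))
    refine tail_lineZ loc (a t) (ha t) ?_
    refine rr_strict a h f ha hne loc t (Or.inl ?_)
    have h2 := h1 t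
    have h3 := ha t
    omega

theorem sh_mem {K : ℕ → ℕ → Prop} {Z : PowerSeries M} (hZ : Z ∈ DenRing L K) :
    sh Z ∈ DenRing L K := by
  have h1 : PowerSeries.X * sh Z ∈ DenRing L K := by
    rw [X_mul_sh]
    exact (DenRing L K).sub_mem hZ (C_mem _)
  obtain ⟨s, hs, N, hN⟩ := exists_dp h1
  refine mem_of_dp s hs ⟨N, fun e he => ?_⟩
  have h2 := hN (e + 1) (by omega)
  have h3 : dp L s * (PowerSeries.X * sh Z) = PowerSeries.X * (dp L s * sh Z) := by ring
  rw [h3, PowerSeries.coeff_succ_X_mul] at h2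
  exact h2

theorem good_ts (loc : Bool) (A : Fam) (τ : Type) (g : MvPolynomial τ ℂ) (Z W : PowerSeries M)
    (hA : Good L loc false A Z) (hg : Good L loc true ⟨τ, Fin 1, fun _ => g⟩ W) :
    Good L loc true (tsFam A τ g) (tsZ L loc Z W) := by
  obtain ⟨fA, hne, hZ, -, -⟩ := hA
  obtain ⟨fg, ⟨j, hj⟩, -, hW, hm⟩ := hg
  have hg0 : g ≠ 0 := hj
  have fg' : Finite τ := fg
  have key : ∀ {S : PowerSeries M}, S ∈ DenRing L (K2 loc (fun _ : Fin 1 => g)) →
      had (tail 1 Z) S ∈ DenRing L (K2 loc (tsFam A τ g).f) := by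
    intro S hS
    refine had_mem hZ hS fun a n a' n' l ha hn hK ha' hn' hK' hl hal hal' => ?_
    have h1 := rr_ts loc A τ g hne hg0 _ _ hK hK'
    rw [add_frac ha ha' hl hal hal'] at h1
    exact h1
  refine good_of_rt loc _ _ (inferInstanceAs (Finite ((A.ι ⊕ A.σ) ⊕ τ)))
    (tsFam_ne A τ g hg0) ?_ (fr_ts loc A τ g fA fg' hne hg0 (hm rfl))
  cases loc with
  | false =>
    rw [rt_global]
    exact key (hW rfl)
  | true =>
    rw [rt_local]
    exact (DenRing L _).add_mem (DenRing L _).one_mem ((DenRing L _).mul_mem X_mem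
      (key (sh_mem (hW rfl))))

end Pool.Agent.Zk74.TS
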