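import Pool.Agent.Zk74.TS.Defs

set_option autoImplicit false
set_option linter.unusedSectionVars false
set_option linter.unusedVariables false

/-! # The series of Thom-Sebastiani sums -/

namespace Pool.Agent.Zk74.TS

open PowerSeries Pool.Agent.W574.MO Pool.Agent.W574.RO Pool.Agent.Zk74.MC

variable {M : Type} [CommRing M]

theorem coeff_sh (Z : M⟦X⟧) (e : ℕ) : coeff e (sh Z) = coeff (e + 1) Z := coeff_mk _ _

theorem X_mul_sh (Z : M⟦X⟧) : X * sh Z = Z - C (coeff 0 Z) := by
  ext e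
  rcases e with _ | e
  · rw [coeff_zero_X_mul, map_sub, coeff_C, if_pos rfl, sub_self]
  · rw [coeff_succ_X_mul, coeff_sh, map_sub, coeff_C, if_neg (Nat.succ_ne_zero e), sub_zero]

theorem coeff_tail_zero (c : M) (Z : M⟦X⟧) : coeff 0 (tail c Z) = c := by
  rw [coeff_tail, Finset.range_zero, Finset.sum_empty, sub_zero]

theorem coeff_tail_succ (c : M) (Z : M⟦X⟧) (e : ℕ) :
    coeff (e + 1) (tail c Z) = coeff e (tail c Z) - coeff e Z := by
  rw [coeff_tail, coeff_tail, Finset.sum_range_succ]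
  ring

/-- `z_e = V_e - V_(e + 1)` -/
theorem coeff_diff (c : M) (Z : M⟦X⟧) (e : ℕ) :
    coeff e Z = coeff e (tail c Z) - coeff (e + 1) (tail c Z) := by
  rw [coeff_tail_succ]
  ring

variable (L : Mˣ)

theorem qq11 : qq L 1 1 = C ((L⁻¹ : Mˣ) : M) * X := by
  rw [qq, pow_one, pow_one]

theorem geo11 : (1 - C ((L⁻¹ : Mˣ) : M) * X) * geo L 1 1 = 1 := by
  have := geo_mul L (le_refl 1) 1
  rwa [qq11] at this

theorem lineZ_false : lineZ L false 1 = C (1 - ((L⁻¹ : Mˣ) : M)) * geo L 1 1 := rfl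

theorem lineZ_true : lineZ L true 1 = C (1 - ((L⁻¹ : Mˣ) : M)) * X * geo L 1 1 := by
  change mf L 1 1 = _
  rw [mf_pos L (le_refl 1)]
  rw [qq11]
  have h : ((L : M) - 1) * ((L⁻¹ : Mˣ) : M) = 1 - ((L⁻¹ : Mˣ) : M) := by
    rw [sub_mul, Units.mul_inv, one_mul]
  rw [← mul_assoc, ← map_mul, h]

/-- the volumes of `ord F ≥ e` for a Thom-Sebastiani sum -/
theorem rt_global (Z W : M⟦X⟧) :
    (1 - qq L 1 1) * tail 1 (tsZ L false Z W) = had (tail 1 Z) ((1 - qq L 1 1) * tail 1 W) := by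
  apply one_sub_X_cancel
  have h0 := tail_eq 1 (tsZ L false Z W)
  have e1 : tsZ L false Z W = had Z (tail 1 W) * lineZ L false 1 + had (sh (tail 1 Z)) W := rfl
  set V := tail 1 Z with hV
  set W' := tail 1 W with hW'
  set H := had V W' with hH
  set K := had (sh V) W' with hK
  have h1 : had Z W' = H - K := by
    ext e
    rw [map_sub, hH, hK, coeff_had, coeff_had, coeff_had, coeff_sh, coeff_diff 1 Z e, ← hV]
    ring
  have h3 : X * sh H = H - 1 := by
    rw [X_mul_sh, hH, coeff_had, hV, hW', coeff_tail_zero, coeff_tail_zero, mul_one, map_one]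
  have h2 : had (sh V) W = K - sh H := by
    ext e
    rw [map_sub, hH, hK, coeff_had, coeff_had, coeff_sh, coeff_sh, coeff_had, coeff_diff 1 W e,
      ← hW']
    ring
  have h5 : had V ((1 - qq L 1 1) * W') = H - C ((L⁻¹ : Mˣ) : M) * (X * K) := by
    rw [qq11]
    ext e
    rw [coeff_had, sub_mul, one_mul, map_sub, map_sub, hH, coeff_had, mul_assoc, coeff_C_mul,
      coeff_C_mul]
    rcases e with _ | e
    · rw [coeff_zero_X_mul, coeff_zero_X_mul]
      ring
    · rw [coeff_succ_X_mul, coeff_succ_X_mul, hK, coeff_had, coeff_sh]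
      ring
  have e2 : tsZ L false Z W = (H - K) * ((1 - C ((L⁻¹ : Mˣ) : M)) * geo L 1 1) +
      (K - sh H) := by
    rw [e1, h1, h2, lineZ_false, map_sub, map_one]
  have h0' := h0.trans (show C (1 : M) - X * tsZ L false Z W = 1 - X * ((H - K) *
    ((1 - C ((L⁻¹ : Mˣ) : M)) * geo L 1 1) + (K - sh H)) by rw [map_one, e2])
  rw [h5, qq11]
  have h4 := geo11 L
  set q := (C ((L⁻¹ : Mˣ) : M) : M⟦X⟧) with hq
  set g := geo L 1 1 with hg
  linear_combination (1 - q * X) * h0' - X * (H - K) * (1 - q) * h4 + (1 - q * X) * h3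

theorem rt_local (Z W : M⟦X⟧) :
    (1 - qq L 1 1) * tail 1 (tsZ L true Z W) =
      1 + X * had (tail 1 Z) (sh ((1 - qq L 1 1) * tail 1 W)) := by
  apply one_sub_X_cancel
  have h0 := tail_eq 1 (tsZ L true Z W)
  have e1 : tsZ L true Z W = had Z (sh (tail 1 W)) * lineZ L true 1 + had (tail 1 Z) W := rfl
  set V := tail 1 Z with hV
  set W' := tail 1 W with hW'
  set H := had V W' with hH
  set K := had V (sh W') with hK
  have h3 : X * sh H = H - 1 := by
    rw [X_mul_sh, hH, coeff_had, hV, hW', coeff_tail_zero, coeff_tail_zero, mul_one, map_one]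
  have h1 : had Z (sh W') = K - sh H := by
    ext e
    rw [map_sub, hH, hK, coeff_had, coeff_had, coeff_sh, coeff_sh, coeff_had, coeff_diff 1 Z e,
      ← hV]
    ring
  have h2 : had V W = H - K := by
    ext e
    rw [map_sub, hH, hK, coeff_had, coeff_had, coeff_had, coeff_sh, coeff_diff 1 W e, ← hW']
    ring
  have h5 : had V (sh ((1 - qq L 1 1) * W')) = K - C ((L⁻¹ : Mˣ) : M) * H := by
    rw [qq11]
    ext e
    rw [coeff_had, coeff_sh, sub_mul, one_mul, map_sub, map_sub, hK, coeff_had, mul_assoc,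
      coeff_C_mul, coeff_C_mul, coeff_succ_X_mul, coeff_sh, hH, coeff_had]
    ring
  have e2 : tsZ L true Z W = (K - sh H) * ((1 - C ((L⁻¹ : Mˣ) : M)) * X * geo L 1 1) +
      (H - K) := by
    rw [e1, h1, h2, lineZ_true, map_sub, map_one]
  have h0' := h0.trans (show C (1 : M) - X * tsZ L true Z W = 1 - X * ((K - sh H) *
    ((1 - C ((L⁻¹ : Mˣ) : M)) * X * geo L 1 1) + (H - K)) by rw [map_one, e2])
  rw [h5, qq11]
  have h4 := geo11 L
  set q := (C ((L⁻¹ : Mˣ) : M) : M⟦X⟧) with hq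
  set g := geo L 1 1 with hg
  linear_combination (1 - q * X) * h0' - X * X * (K - sh H) * (1 - q) * h4 + (1 - q) * X * h3

end Pool.Agent.Zk74.TS
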